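import Mathlib
import Pool.Agent.H95.Gol.Sieve
import Pool.Agent.H66.Gol.Blk

/-!
The Brun-Hooley upper bound sieve of dimension 3 with events periodic modulo `p^2`
(the proof of `Pool.Agent.H95.Gol.sieve_of_blk` with `3` in place of `2`).
-/

namespace Pool.Agent.H24.SH

open Finset Classical
open Pool.Agent.H12 (esym tsum' bonferroni esym_le esym_nonneg)
open Pool.Agent.H95.Gol

/-- the sieve up to `bb K` for odd primes, in terms of the block sums -/
theorem sieve_blocks3 (Lb : ℝ) (hLb : ∀ k : ℕ, ∑ l ∈ PB k, (1:ℝ) / l ≤ Lb) (P : Finset ℕ)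
    (K J : ℕ) (E : ℕ → ℕ → Prop) (g : ℕ → ℕ) (hP : ∀ p ∈ P, p.Prime ∧ 2 < p ∧ p ≤ bb K)
    (hE : ∀ p ∈ P, ∀ j, E p j ↔ E p (j % p^2))
    (hg : ∀ p ∈ P, ((range (p^2)).filter (E p)).card = g p)
    (hg2 : ∀ p ∈ P, g p ≤ 3 * p) :
    (((range J).filter (fun j => ∀ p ∈ P, ¬ E p j)).card : ℝ) ≤
      J * (Real.exp (Real.exp (6 * Lb)) * Real.exp (- ∑ p ∈ P, (g p : ℝ) / p^2)) +
        (bb K : ℝ)^32 := by
  set Q : ℕ → Finset ℕ := fun i => P ∩ PB (K - 1 - i) with hQ
  set r : ℕ → ℕ := fun i => 2 * (i + 1) with hr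
  have hprime : ∀ p ∈ P, p.Prime := fun p hp => (hP p hp).1
  have hgr : ∀ p ∈ P, (((range (p^2)).filter (E p)).card : ℝ) = (fun p => (g p : ℝ)) p :=
    fun p hp => by rw [hg p hp]
  have hup := hooley_upper J P hprime E hE (fun p => (g p : ℝ)) hgr Q r
    (fun i => ⟨i+1, by simp only [hr]; ring⟩) K (fun i _ => inter_subset_left)
    (fun i hi i' hi' hne => (PB_disjoint (by omega)).mono inter_subset_right inter_subset_right)
  have hPunion : P = (range K).biUnion Q := by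
    ext p
    rw [mem_biUnion]
    constructor
    · intro hp
      obtain ⟨h1, h2, h3⟩ := hP p hp
      obtain ⟨k, hk, hpk⟩ := exists_block h1 h2 h3
      refine ⟨K - 1 - k, mem_range.mpr (by omega), ?_⟩
      simp only [hQ, mem_inter]
      refine ⟨hp, ?_⟩
      rw [show K - 1 - (K - 1 - k) = k by omega]
      exact hpk
    · rintro ⟨i, -, hi⟩
      exact (mem_inter.mp hi).1
  have hdisjQ : ∀ i ∈ (range K : Finset ℕ), ∀ i' ∈ (range K : Finset ℕ), i ≠ i' →
      Disjoint (Q i) (Q i') := by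
    intro i hi i' hi' hne
    rw [mem_range] at hi hi'
    exact (PB_disjoint (by omega)).mono inter_subset_right inter_subset_right
  have hδ : ∀ p ∈ P, 0 ≤ (g p : ℝ) / (p:ℝ)^2 ∧ (g p : ℝ) / (p:ℝ)^2 ≤ 3 / p := by
    intro p hp
    have hp0 : (0:ℝ) < p := by exact_mod_cast (hprime p hp).pos
    refine ⟨by positivity, ?_⟩
    rw [div_le_div_iff₀ (by positivity) hp0]
    have : (g p : ℝ) ≤ 3 * p := by exact_mod_cast hg2 p hp
    nlinarith
  have hδ1 : ∀ p ∈ P, (g p : ℝ) / (p:ℝ)^2 ≤ 1 := by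
    intro p hp
    refine (hδ p hp).2.trans ?_
    have : (3:ℝ) ≤ p := by exact_mod_cast (hP p hp).2.1
    rw [div_le_one (by linarith)]; exact this
  have hLb0 : 0 ≤ Lb := le_trans (sum_nonneg fun l _ => by positivity) (hLb 0)
  have hS : ∀ i, ∑ p ∈ Q i, (g p : ℝ) / (p:ℝ)^2 ≤ 3 * Lb := by
    intro i
    calc ∑ p ∈ Q i, (g p : ℝ) / (p:ℝ)^2 ≤ ∑ p ∈ Q i, 3 * ((1:ℝ) / p) := by
          refine sum_le_sum fun p hp => ?_
          have := (hδ p (mem_inter.mp hp).1).2
          rw [mul_one_div]; exact this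
      _ ≤ ∑ p ∈ PB (K - 1 - i), 3 * ((1:ℝ) / p) :=
          sum_le_sum_of_subset_of_nonneg inter_subset_right fun p _ _ => by positivity
      _ = 3 * ∑ p ∈ PB (K - 1 - i), (1:ℝ) / p := by rw [mul_sum]
      _ ≤ 3 * Lb := by linarith [hLb (K - 1 - i)]
  -- main term
  have hmain : ∏ i ∈ range K, tsum' (Q i) (fun p => (g p : ℝ) / (p:ℝ)^2) (r i) ≤
      Real.exp (Real.exp (6 * Lb)) * Real.exp (- ∑ p ∈ P, (g p : ℝ) / p^2) := by
    set x : ℕ → ℝ := fun i => Real.exp (3 * Lb) * ((3 * Lb)^(r i + 1) / ((r i + 1).factorial : ℝ))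
      with hx
    have hx0 : ∀ i, 0 ≤ x i := fun i => by positivity
    have h1 : ∏ i ∈ range K, tsum' (Q i) (fun p => (g p : ℝ) / (p:ℝ)^2) (r i) ≤
        ∏ i ∈ range K, (Real.exp (-∑ p ∈ Q i, (g p : ℝ) / (p:ℝ)^2) * (1 + x i)) := by
      refine prod_le_prod (fun i _ => ?_) (fun i _ => ?_)
      · have hb := (bonferroni (Q i) (fun p => (g p : ℝ) / (p:ℝ)^2) (fun p hp =>
          ⟨(hδ p (mem_inter.mp hp).1).1, hδ1 p (mem_inter.mp hp).1⟩) (r i)).1
        rw [(show Even (r i) from ⟨i+1, by simp only [hr]; ring⟩).neg_one_pow, one_mul] at hb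
        have : 0 ≤ ∏ p ∈ Q i, (1 - (g p : ℝ) / (p:ℝ)^2) :=
          prod_nonneg fun p hp => by linarith [hδ1 p (mem_inter.mp hp).1]
        linarith
      · exact block_main (Q i) _ (fun p hp => ⟨(hδ p (mem_inter.mp hp).1).1,
          hδ1 p (mem_inter.mp hp).1⟩) (r i) ⟨i+1, by simp only [hr]; ring⟩ (3 * Lb) (hS i)
    refine h1.trans ?_
    rw [prod_mul_distrib, ← Real.exp_sum, sum_neg_distrib, ← sum_biUnion hdisjQ, ← hPunion, mul_comm]
    refine mul_le_mul_of_nonneg_right ?_ (Real.exp_pos _).le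
    calc ∏ i ∈ range K, (1 + x i) ≤ ∏ i ∈ range K, Real.exp (x i) :=
          prod_le_prod (fun i _ => by linarith [hx0 i]) (fun i _ => by
            have := Real.add_one_le_exp (x i); linarith)
      _ = Real.exp (∑ i ∈ range K, x i) := by rw [Real.exp_sum]
      _ ≤ Real.exp (Real.exp (6 * Lb)) := by
          apply Real.exp_le_exp.mpr
          rw [hx, ← mul_sum]
          have h2 : ∑ i ∈ range K, (3 * Lb)^(r i + 1) / ((r i + 1).factorial : ℝ) ≤
              Real.exp (3 * Lb) := by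
            have hinj : Set.InjOn (fun i => r i + 1) (range K : Finset ℕ) := by
              intro a _ b _ hab
              simp only [hr] at hab
              omega
            rw [← sum_image (f := fun t : ℕ => (3 * Lb)^t / (t.factorial : ℝ)) hinj]
            exact pow_div_fact_le (3 * Lb) (by positivity) 0 _
          calc Real.exp (3 * Lb) * ∑ i ∈ range K, (3 * Lb)^(r i + 1) / ((r i + 1).factorial : ℝ)
              ≤ Real.exp (3 * Lb) * Real.exp (3 * Lb) :=
                mul_le_mul_of_nonneg_left h2 (Real.exp_pos _).le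
            _ = Real.exp (6 * Lb) := by rw [← Real.exp_add]; congr 1; ring
  -- error term
  have herr : ∏ i ∈ range K, Bd (Q i) (fun p => (g p : ℝ)) (r i) ≤ (bb K : ℝ)^32 := by
    have h1 : ∀ i ∈ range K, Bd (Q i) (fun p => (g p : ℝ)) (r i) ≤
        (2:ℝ)^(8 * ((i+1) * 2^(K-i))) := by
      intro i hi
      rw [mem_range] at hi
      set y : ℕ := bb (K - i) with hy
      have hy2 : 2 ≤ y := two_le_bb _
      have hsub : Q i ⊆ range (y + 1) := by
        intro p hp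
        have := (mem_PB.mp (mem_inter.mp hp).2).1.2
        rw [show K - 1 - i + 1 = K - i by omega] at this
        rw [mem_range]; omega
      have hsum : 1 + ∑ p ∈ Q i, (g p : ℝ) ≤ ((y:ℝ)^4) := by
        have h2 : ∑ p ∈ Q i, (g p : ℝ) ≤ ∑ p ∈ Q i, (3 * (y:ℝ)) := by
          refine sum_le_sum fun p hp => ?_
          have h3 : (g p : ℝ) ≤ 3 * p := by exact_mod_cast hg2 p (mem_inter.mp hp).1
          have h4 : (p:ℝ) ≤ y := by
            have := mem_range.mp (hsub hp)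
            exact_mod_cast (by omega : p ≤ y)
          linarith
        rw [sum_const, nsmul_eq_mul] at h2
        have h5 : ((Q i).card : ℝ) ≤ y := by
          have h6 : Q i ⊆ Ioc 0 y := by
            intro p hp
            have a := mem_range.mp (hsub hp)
            have b := (hprime p (mem_inter.mp hp).1).pos
            rw [mem_Ioc]; omega
          have := card_le_card h6
          rw [Nat.card_Ioc] at this
          exact_mod_cast (by omega : (Q i).card ≤ y)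
        have hyr : (2:ℝ) ≤ y := by exact_mod_cast hy2
        have h7 : ((Q i).card : ℝ) * (3 * (y:ℝ)) ≤ y * (3 * y) :=
          mul_le_mul_of_nonneg_right h5 (by positivity)
        have h8 : (4:ℝ) ≤ (y:ℝ)^2 := by nlinarith
        nlinarith
      refine (block_err (Q i) _ (fun p _ => Nat.cast_nonneg _) (r i) _ hsum).trans (le_of_eq ?_)
      rw [hy]
      unfold bb
      push_cast
      rw [← pow_mul, ← pow_mul]
      congr 1
      simp only [hr]
      ring
    calc ∏ i ∈ range K, Bd (Q i) (fun p => (g p : ℝ)) (r i) ≤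
          ∏ i ∈ range K, (2:ℝ)^(8 * ((i+1) * 2^(K-i))) :=
          prod_le_prod (fun i _ => Bd_nonneg _ _ (fun p _ => Nat.cast_nonneg _) _) h1
      _ = (2:ℝ)^(∑ i ∈ range K, 8 * ((i+1) * 2^(K-i))) := by rw [prod_pow_eq_pow_sum]
      _ ≤ (2:ℝ)^(32 * 2^K) := by
          refine pow_le_pow_right₀ (by norm_num) ?_
          rw [← mul_sum]
          have := geom_exp K
          omega
      _ = (bb K : ℝ)^32 := by
          unfold bb
          push_cast
          rw [← pow_mul]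
          congr 1
          ring
  have hJ : (0:ℝ) ≤ J := Nat.cast_nonneg _
  have := mul_le_mul_of_nonneg_left hmain hJ
  linarith

/-- Brun-Hooley upper bound sieve of dimension 3 with events periodic modulo `p^2` -/
theorem sieve3 : ∃ (A : ℕ) (C : ℝ), 0 < C ∧ ∀ (P : Finset ℕ) (K J : ℕ) (E : ℕ → ℕ → Prop)
    (g : ℕ → ℕ), (bb K) ^ A ≤ J → (∀ p ∈ P, p.Prime ∧ 2 < p ∧ p ≤ bb K) →
    (∀ p ∈ P, ∀ j, E p j ↔ E p (j % p^2)) →
    (∀ p ∈ P, ((range (p^2)).filter (E p)).card = g p) →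
    (∀ p ∈ P, g p ≤ 3 * p) →
    (((range J).filter (fun j => ∀ p ∈ P, ¬ E p j)).card : ℝ) ≤
      C * J * Real.exp (- ∑ p ∈ P, (g p : ℝ) / p^2) := by
  obtain ⟨C0, hC0, hb⟩ := Pool.Agent.H66.Gol.blk
  set Lb : ℝ := Real.log 2 + C0 with hLb
  have hbu : ∀ k, ∑ l ∈ PB k, (1:ℝ) / l ≤ Real.log 2 + C0 / 2 ^ k := fun k => by
    have := (abs_le.mp (hb k)).2
    linarith
  have hLbk : ∀ k : ℕ, ∑ l ∈ PB k, (1:ℝ) / l ≤ Lb := fun k => by
    refine (hbu k).trans ?_
    have h1 : (1:ℝ) ≤ 2 ^ k := one_le_pow₀ (by norm_num)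
    have : C0 / 2 ^ k ≤ C0 := div_le_self hC0.le h1
    linarith
  set E0 : ℝ := Real.exp (Real.exp (6 * Lb)) with hE0
  have hE0pos : 0 < E0 := Real.exp_pos _
  refine ⟨34, E0 + Real.exp (6 * C0), by positivity, ?_⟩
  intro P K J E g hJ hP hE hg hg2
  have hs := sieve_blocks3 Lb hLbk P K J E g hP hE hg hg2
  have hδ0 : ∀ p ∈ P, 0 ≤ (g p : ℝ) / (p:ℝ)^2 := fun p _ => by positivity
  have hPsum : ∑ p ∈ P, (g p : ℝ) / (p:ℝ)^2 ≤ 3 * (K * Real.log 2 + 2 * C0) := by
    have h1 : P ⊆ (range K).biUnion PB := by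
      intro p hp
      obtain ⟨k, hk, hpk⟩ := exists_block (hP p hp).1 (hP p hp).2.1 (hP p hp).2.2
      exact mem_biUnion.mpr ⟨k, mem_range.mpr hk, hpk⟩
    calc ∑ p ∈ P, (g p : ℝ) / (p:ℝ)^2 ≤ ∑ p ∈ P, 3 * ((1:ℝ) / p) := by
          refine sum_le_sum fun p hp => ?_
          have hp0 : (0:ℝ) < p := by exact_mod_cast (hP p hp).1.pos
          rw [mul_one_div, div_le_div_iff₀ (by positivity) hp0]
          have : (g p : ℝ) ≤ 3 * p := by exact_mod_cast (hg2 p hp)
          nlinarith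
      _ ≤ ∑ p ∈ (range K).biUnion PB, 3 * ((1:ℝ) / p) :=
          sum_le_sum_of_subset_of_nonneg h1 fun p _ _ => by positivity
      _ ≤ ∑ k ∈ range K, ∑ p ∈ PB k, 3 * ((1:ℝ) / p) :=
          le_of_eq (sum_biUnion fun a _ b _ hab => PB_disjoint hab)
      _ = 3 * ∑ k ∈ range K, ∑ p ∈ PB k, (1:ℝ) / p := by
          rw [mul_sum]
          exact sum_congr rfl fun k _ => by rw [mul_sum]
      _ ≤ 3 * ∑ k ∈ range K, (Real.log 2 + C0 * (1 / 2 ^ k)) := by
          refine mul_le_mul_of_nonneg_left (sum_le_sum fun k _ => ?_) (by norm_num)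
          have := hbu k
          rw [mul_one_div]; exact this
      _ = 3 * (K * Real.log 2 + C0 * ∑ k ∈ Ico 0 K, 1 / 2 ^ k) := by
          rw [sum_add_distrib, sum_const, card_range, nsmul_eq_mul, ← mul_sum,
            Nat.Ico_zero_eq_range]
      _ ≤ 3 * (K * Real.log 2 + 2 * C0) := by
          have := geom_half' 0 K
          rw [pow_zero, div_one] at this
          nlinarith
  have hexp : Real.exp (-(6 * C0)) * (8:ℝ)^(-(K:ℤ)) ≤
      Real.exp (- ∑ p ∈ P, (g p : ℝ) / (p:ℝ)^2) := by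
    have h4 : (8:ℝ)^(-(K:ℤ)) = Real.exp (-(3 * K * Real.log 2)) := by
      rw [zpow_neg, zpow_natCast, Real.exp_neg]
      congr 1
      rw [show (3 * (K:ℝ) * Real.log 2) = K * Real.log 8 by
        rw [show (8:ℝ) = 2^3 by norm_num, Real.log_pow]; push_cast; ring,
        Real.exp_nat_mul, Real.exp_log (by norm_num)]
    rw [h4, ← Real.exp_add]
    apply Real.exp_le_exp.mpr
    linarith
  have hJ' : (bb K:ℝ)^34 ≤ J := by exact_mod_cast hJ
  have herr : (bb K : ℝ)^32 ≤ J * (8:ℝ)^(-(K:ℤ)) := by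
    have h2 : ((8:ℝ)^K) ≤ (bb K:ℝ)^2 := by
      have h3 : ((4:ℝ)^K) ≤ bb K := by exact_mod_cast four_pow_le_bb K
      calc (8:ℝ)^K ≤ (16:ℝ)^K := pow_le_pow_left₀ (by norm_num) (by norm_num) K
        _ = ((4:ℝ)^K)^2 := by rw [← pow_mul, mul_comm, pow_mul]; norm_num
        _ ≤ (bb K:ℝ)^2 := pow_le_pow_left₀ (by positivity) h3 2
    rw [zpow_neg, zpow_natCast, ← div_eq_mul_inv, le_div_iff₀ (by positivity)]
    calc (bb K : ℝ)^32 * 8^K ≤ (bb K : ℝ)^32 * (bb K:ℝ)^2 :=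
          mul_le_mul_of_nonneg_left h2 (by positivity)
      _ = (bb K:ℝ)^34 := by ring
      _ ≤ J := hJ'
  have hJ0 : (0:ℝ) ≤ J := Nat.cast_nonneg _
  set X : ℝ := Real.exp (- ∑ p ∈ P, (g p : ℝ) / (p:ℝ)^2) with hX
  have herr2 : (8:ℝ)^(-(K:ℤ)) ≤ Real.exp (6 * C0) * X := by
    have h1 : Real.exp (6 * C0) * (Real.exp (-(6 * C0)) * (8:ℝ)^(-(K:ℤ))) =
        (8:ℝ)^(-(K:ℤ)) := by
      rw [← mul_assoc, ← Real.exp_add, add_neg_cancel, Real.exp_zero, one_mul]
    rw [← h1]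
    exact mul_le_mul_of_nonneg_left hexp (Real.exp_pos _).le
  calc (((range J).filter (fun j => ∀ p ∈ P, ¬ E p j)).card : ℝ)
      ≤ J * (E0 * X) + (bb K : ℝ)^32 := hs
    _ ≤ J * (E0 * X) + J * (Real.exp (6 * C0) * X) := by
        have := herr.trans (mul_le_mul_of_nonneg_left herr2 hJ0)
        linarith
    _ = (E0 + Real.exp (6 * C0)) * J * X := by ring

end Pool.Agent.H24.SH
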