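import Mathlib
import Pool.Agent.H24.SH.Sieve3
import Pool.Agent.H95.Gol.Count
import Pool.Agent.H66.Gol.FSum

/-!
The sieve for the integers `x` in a residue class such that `x^2 - x + l` is free of some primes
and no prime of another set divides `x - l` exactly.
-/

namespace Pool.Agent.H24.SH

open Finset Classical Pool.Agent.H95.Gol

/-- number of roots of `x^2 - x + l` modulo `ℓ` -/
noncomputable def rho (l ℓ : ℕ) : ℕ :=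
  ((range ℓ).filter (fun x : ℕ => (ℓ:ℤ) ∣ (x:ℤ)^2 - x + l)).card

/-- the discriminant -/
def disc (l : ℕ) : ℤ := 1 - 4 * l

lemma root_iff (l ℓ : ℕ) [hℓ : Fact ℓ.Prime] (h2 : ℓ ≠ 2) (x : ℕ) :
    (ℓ:ℤ) ∣ (x:ℤ)^2 - x + l ↔ (2 * (x:ZMod ℓ) - 1)^2 = ((disc l : ℤ) : ZMod ℓ) := by
  rw [← ZMod.intCast_zmod_eq_zero_iff_dvd]
  unfold disc
  push_cast
  have h20 : (2 : ZMod ℓ) ≠ 0 := by
    intro h
    have h3 : ((2:ℕ) : ZMod ℓ) = 0 := by exact_mod_cast h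
    rw [ZMod.natCast_eq_zero_iff] at h3
    exact h2 ((Nat.prime_dvd_prime_iff_eq hℓ.out Nat.prime_two).mp h3)
  have h4 : (4 : ZMod ℓ) ≠ 0 := by
    have : (4 : ZMod ℓ) = 2 * 2 := by norm_num
    rw [this]; exact mul_ne_zero h20 h20
  constructor
  · intro h; linear_combination 4 * h
  · intro h
    apply mul_left_cancel₀ h4
    linear_combination h

lemma rho_eq (l ℓ : ℕ) (hℓ : ℓ.Prime) (h2 : ℓ ≠ 2) : (rho l ℓ : ℝ) = 1 + F (disc l) ℓ := by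
  have hf : Fact ℓ.Prime := ⟨hℓ⟩
  have h20 : (2 : ZMod ℓ) ≠ 0 := by
    intro h
    have h3 : ((2:ℕ) : ZMod ℓ) = 0 := by exact_mod_cast h
    rw [ZMod.natCast_eq_zero_iff] at h3
    exact h2 ((Nat.prime_dvd_prime_iff_eq hℓ Nat.prime_two).mp h3)
  have h1 := legendreSym.card_sqrts ℓ h2 (disc l)
  have h3 : rho l ℓ = {x : ZMod ℓ | x ^ 2 = ((disc l : ℤ) : ZMod ℓ)}.toFinset.card := by
    unfold rho
    refine card_nbij' (fun x : ℕ => 2 * (x : ZMod ℓ) - 1) (fun y => ((y + 1) * (2:ZMod ℓ)⁻¹).val)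
      ?_ ?_ ?_ ?_
    · intro x hx
      simp only [coe_filter, mem_range, Set.mem_ofPred_eq] at hx
      simp only [Set.coe_toFinset, Set.mem_ofPred_eq]
      exact (root_iff l ℓ h2 x).mp hx.2
    · intro y hy
      simp only [Set.coe_toFinset, Set.mem_ofPred_eq] at hy
      simp only [coe_filter, mem_range, Set.mem_ofPred_eq]
      refine ⟨ZMod.val_lt _, ?_⟩
      rw [root_iff l ℓ h2, ZMod.natCast_zmod_val]
      have : 2 * ((y + 1) * (2:ZMod ℓ)⁻¹) - 1 = y := by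
        field_simp; ring
      rw [this]; exact hy
    · intro x hx
      simp only [coe_filter, mem_range, Set.mem_ofPred_eq] at hx
      have : (2 * (x : ZMod ℓ) - 1 + 1) * (2:ZMod ℓ)⁻¹ = x := by
        field_simp; ring
      simp only [this]
      exact ZMod.val_cast_of_lt hx.1
    · intro y _
      simp only
      rw [ZMod.natCast_zmod_val]
      field_simp; ring
  rw [h3]
  unfold F
  rw [if_pos (hℓ.odd_of_ne_two h2), ← jacobiSym.legendreSym.to_jacobiSym]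
  have h4 : (({x : ZMod ℓ | x ^ 2 = ((disc l : ℤ) : ZMod ℓ)}.toFinset.card : ℤ) : ℝ) =
    ((legendreSym ℓ (disc l) + 1 : ℤ) : ℝ) := by rw [h1]
  push_cast at h4
  rw [add_comm]
  exact h4

lemma rho_le (l ℓ : ℕ) (hℓ : ℓ.Prime) (h2 : ℓ ≠ 2) : rho l ℓ ≤ 2 := by
  have h1 := rho_eq l ℓ hℓ h2
  have h3 := (abs_le.mp (Pool.Agent.H66.Gol.abs_F_le (disc l) ℓ)).2
  have h4 : (rho l ℓ : ℝ) ≤ 2 := by linarith
  exact_mod_cast h4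

/-- the events of the sieve -/
def EV (l : ℕ) (A B : ℕ → Prop) (ℓ x : ℕ) : Prop :=
  (A ℓ ∧ (ℓ:ℤ) ∣ (x:ℤ)^2 - x + l) ∨ (B ℓ ∧ (ℓ:ℤ) ∣ (x:ℤ) - l ∧ ¬ (ℓ:ℤ)^2 ∣ (x:ℤ) - l)

/-- the number of residues excluded -/
noncomputable def gV (l : ℕ) (A B : ℕ → Prop) (ℓ : ℕ) : ℕ :=
  (if A ℓ then rho l ℓ * ℓ else 0) + (if B ℓ then ℓ - 1 else 0)

lemma V_per (l ℓ x y : ℕ) (h : (ℓ:ℤ) ∣ (x:ℤ) - y) :
    (ℓ:ℤ) ∣ (x:ℤ)^2 - x + l ↔ (ℓ:ℤ) ∣ (y:ℤ)^2 - y + l := by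
  obtain ⟨c, hc⟩ := h
  have h1 : (x:ℤ)^2 - x + l = ((y:ℤ)^2 - y + l) + ℓ * (c * (x + y - 1)) := by
    linear_combination (x + y - 1) * hc
  rw [h1]
  exact dvd_add_left (dvd_mul_right _ _)

lemma EV_per (l : ℕ) (A B : ℕ → Prop) (ℓ x : ℕ) : EV l A B ℓ x ↔ EV l A B ℓ (x % ℓ^2) := by
  have h0 : (ℓ:ℤ)^2 ∣ (x:ℤ) - ((x % ℓ^2 : ℕ):ℤ) := by
    refine ⟨((x / ℓ^2 : ℕ) : ℤ), ?_⟩
    have := Nat.mod_add_div x (ℓ^2)
    have h : (x:ℤ) = ((x % ℓ^2 : ℕ):ℤ) + (ℓ:ℤ)^2 * ((x / ℓ^2 : ℕ) : ℤ) := by exact_mod_cast this.symm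
    linarith
  have h1 : (ℓ:ℤ) ∣ (x:ℤ) - ((x % ℓ^2 : ℕ):ℤ) := (Dvd.intro_left _ (by ring : (ℓ:ℤ) * ℓ = (ℓ:ℤ)^2)).trans h0
  unfold EV
  rw [V_per l ℓ x _ h1]
  have e1 : (x:ℤ) - l = ((((x % ℓ^2 : ℕ):ℤ)) - l) + ((x:ℤ) - ((x % ℓ^2 : ℕ):ℤ)) := by ring
  rw [e1, dvd_add_left h1, dvd_add_left h0]

/-- residues modulo `ℓ^2` of a condition modulo `ℓ` -/
lemma card_sq_of_mod (ℓ : ℕ) (hℓ : 0 < ℓ) (R : ℕ → Prop) [DecidablePred R]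
    (hR : ∀ x, R x ↔ R (x % ℓ)) :
    ((range (ℓ^2)).filter R).card = ((range ℓ).filter R).card * ℓ := by
  have h1 : ∀ x ∈ (range (ℓ^2)).filter R, x % ℓ ∈ (range ℓ).filter R := by
    intro x hx
    rw [mem_filter] at hx ⊢
    exact ⟨mem_range.mpr (Nat.mod_lt _ hℓ), (hR x).mp hx.2⟩
  rw [card_eq_sum_card_fiberwise (f := fun x => x % ℓ) (s := (range (ℓ^2)).filter R)
    (t := (range ℓ).filter R) h1]
  refine sum_const_nat fun c hc => ?_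
  rw [mem_filter, mem_range] at hc
  rw [filter_filter]
  refine Eq.trans ?_ (card_mod_eq ℓ c hc.1)
  congr 1
  refine filter_congr fun x _ => ?_
  constructor
  · exact fun h => h.2
  · intro h
    refine ⟨?_, h⟩
    rw [hR x, h]; exact hc.2

lemma EV_card (l : ℕ) (A B : ℕ → Prop) (ℓ : ℕ) (hℓ : ℓ.Prime) (hl : 0 < l) (h4 : 4 * l < ℓ) :
    ((range (ℓ^2)).filter (EV l A B ℓ)).card = gV l A B ℓ := by
  have h2 : ℓ ≠ 2 := by omega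
  have hc1 : ((range (ℓ^2)).filter (fun x : ℕ => (ℓ:ℤ) ∣ (x:ℤ)^2 - x + l)).card = rho l ℓ * ℓ := by
    unfold rho
    refine card_sq_of_mod ℓ hℓ.pos _ fun x => ?_
    apply V_per
    refine ⟨((x / ℓ : ℕ) : ℤ), ?_⟩
    have := Nat.mod_add_div x ℓ
    have h : (x:ℤ) = ((x % ℓ : ℕ):ℤ) + (ℓ:ℤ) * ((x / ℓ : ℕ) : ℤ) := by exact_mod_cast this.symm
    linarith
  have hc2 : ((range (ℓ^2)).filter (fun x : ℕ => (ℓ:ℤ) ∣ (x:ℤ) - l ∧ ¬ (ℓ:ℤ)^2 ∣ (x:ℤ) - l)).card =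
      ℓ - 1 := by
    have h1 := card_affine 1 (l * (ℓ^2 - 1)) (ℓ^2) (Nat.coprime_one_left _)
      (fun x => ℓ ∣ x ∧ ¬ ℓ^2 ∣ x) (fun x => by
        rw [Nat.dvd_mod_iff (⟨ℓ, by ring⟩ : ℓ ∣ ℓ^2), Nat.dvd_mod_iff (dvd_refl _)])
    have h1' := h1.trans (by convert card_exact ℓ hℓ.pos)
    refine Eq.trans ?_ h1'
    refine card_nbij' (fun x => x) (fun x => x) ?_ ?_ (fun _ _ => rfl) (fun _ _ => rfl) <;>
    intro x hx <;>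
    simp only [coe_filter, Set.mem_ofPred_eq] at hx ⊢ <;>
    refine ⟨hx.1, ?_⟩ <;> have hx2 := hx.2 <;> clear hx <;> revert hx2 <;>
    [refine Iff.mp ?_; refine Iff.mpr ?_]
    all_goals
    have e : ((l * (ℓ^2 - 1) + 1 * x : ℕ) : ℤ) = ((x:ℤ) - l) + (ℓ:ℤ)^2 * l := by
      rw [Nat.cast_add, Nat.cast_mul, Nat.cast_sub (Nat.one_le_pow _ _ hℓ.pos)]
      push_cast; ring
    have e1 : (ℓ:ℤ) ∣ (ℓ:ℤ)^2 * l := ⟨ℓ * l, by ring⟩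
    have e2 : (ℓ:ℤ)^2 ∣ (ℓ:ℤ)^2 * l := dvd_mul_right _ _
    rw [← Int.natCast_dvd_natCast, ← Int.natCast_dvd_natCast, e, Nat.cast_pow, dvd_add_left e1,
      dvd_add_left e2]
  have hdis : Disjoint ((range (ℓ^2)).filter (fun x : ℕ => A ℓ ∧ (ℓ:ℤ) ∣ (x:ℤ)^2 - x + l))
      ((range (ℓ^2)).filter (fun x : ℕ => B ℓ ∧ (ℓ:ℤ) ∣ (x:ℤ) - l ∧ ¬ (ℓ:ℤ)^2 ∣ (x:ℤ) - l)) := by
    rw [disjoint_filter]
    rintro x _ ⟨_, h5⟩ ⟨_, h6, _⟩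
    have h7 : (ℓ:ℤ) ∣ (l:ℤ) * l := by
      have : (l:ℤ) * l = ((x:ℤ)^2 - x + l) - ((x:ℤ) - l) * (x + l - 1) := by ring
      rw [this]
      exact dvd_sub h5 (dvd_mul_of_dvd_left h6 _)
    have h8 : ℓ ∣ l * l := by exact_mod_cast h7
    rcases hℓ.dvd_mul.mp h8 with h9 | h9 <;>
    · have := Nat.le_of_dvd hl h9
      omega
  have hsplit : (range (ℓ^2)).filter (EV l A B ℓ) =
      (range (ℓ^2)).filter (fun x : ℕ => A ℓ ∧ (ℓ:ℤ) ∣ (x:ℤ)^2 - x + l) ∪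
      (range (ℓ^2)).filter (fun x : ℕ => B ℓ ∧ (ℓ:ℤ) ∣ (x:ℤ) - l ∧ ¬ (ℓ:ℤ)^2 ∣ (x:ℤ) - l) := by
    rw [← filter_or]
    refine filter_congr fun x _ => ?_
    unfold EV
    rfl
  rw [hsplit, card_union_of_disjoint hdis]
  unfold gV
  congr 1
  · by_cases hA : A ℓ
    · simp only [hA, true_and, if_true]
      exact hc1
    · simp [hA]
  · by_cases hB : B ℓ
    · simp only [hB, true_and, if_true]
      exact hc2
    · simp [hB]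

lemma gV_le (l : ℕ) (A B : ℕ → Prop) (ℓ : ℕ) (hℓ : ℓ.Prime) (h2 : ℓ ≠ 2) :
    gV l A B ℓ ≤ 3 * ℓ := by
  have h1 := Nat.mul_le_mul_right ℓ (rho_le l ℓ hℓ h2)
  unfold gV
  split_ifs <;> omega

/-- the weight in the exponent -/
noncomputable def wV (l : ℕ) (A B : ℕ → Prop) (ℓ : ℕ) : ℝ :=
  (if A ℓ then 1 + F (disc l) ℓ else 0) + (if B ℓ then 1 else 0)

lemma wV_nonneg (l : ℕ) (A B : ℕ → Prop) (ℓ : ℕ) : 0 ≤ wV l A B ℓ := by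
  have h3 := (abs_le.mp (Pool.Agent.H66.Gol.abs_F_le (disc l) ℓ)).1
  unfold wV
  split_ifs <;> linarith

lemma gV_ge (l : ℕ) (A B : ℕ → Prop) (ℓ : ℕ) (hℓ : ℓ.Prime) (h2 : ℓ ≠ 2) :
    wV l A B ℓ / ℓ ≤ (gV l A B ℓ : ℝ) / (ℓ:ℝ)^2 + 1 / (ℓ:ℝ)^2 := by
  have hl0 : (0:ℝ) < ℓ := by exact_mod_cast hℓ.pos
  have h1 := hℓ.one_lt
  rw [← add_div, div_le_div_iff₀ hl0 (by positivity)]
  have hge : wV l A B ℓ * ℓ ≤ (gV l A B ℓ : ℝ) + 1 := by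
    unfold wV gV
    rw [← rho_eq l ℓ hℓ h2, Nat.cast_add]
    split_ifs
    · rw [Nat.cast_sub (by omega)]; push_cast; linarith
    · push_cast; linarith
    · rw [Nat.cast_sub (by omega)]; push_cast; linarith
    · push_cast; linarith
  calc wV l A B ℓ * (ℓ:ℝ)^2 = (wV l A B ℓ * ℓ) * ℓ := by ring
    _ ≤ ((gV l A B ℓ : ℝ) + 1) * ℓ := mul_le_mul_of_nonneg_right hge hl0.le

/-- the sieve in a residue class -/
theorem countV : ∃ (A0 : ℕ) (C : ℝ), 0 < C ∧ ∀ (l M w0 X K : ℕ) (A B : ℕ → Prop), 0 < l →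
    0 < M → (bb K)^A0 * M ≤ X →
    (((range (X+1)).filter (fun x => x % M = w0 ∧
      ∀ ℓ : ℕ, ℓ.Prime → 4 * l < ℓ → ℓ ≤ bb K → ¬ ℓ ∣ M → ¬ EV l A B ℓ x)).card : ℝ) ≤
      C * (X / M) * Real.exp (- ∑ k ∈ range K, ∑ ℓ ∈ PB k,
        (if ℓ ≤ 4 * l ∨ ℓ ∣ M then (0:ℝ) else wV l A B ℓ) / ℓ) := by
  obtain ⟨A0, C, hC, hs⟩ := sieve3
  refine ⟨A0, 2 * C * Real.exp 1, by positivity, ?_⟩
  intro l M w0 X K A B hl hM hX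
  set S := (range (X+1)).filter (fun x => x % M = w0 ∧
      ∀ ℓ : ℕ, ℓ.Prime → 4 * l < ℓ → ℓ ≤ bb K → ¬ ℓ ∣ M → ¬ EV l A B ℓ x) with hS
  set J := X / M + 1 with hJ
  set Ps := (range (bb K + 1)).filter (fun ℓ => ℓ.Prime ∧ 4 * l < ℓ ∧ ¬ ℓ ∣ M) with hPs
  have hPs1 : ∀ ℓ ∈ Ps, ℓ.Prime ∧ 4 * l < ℓ ∧ ℓ ≤ bb K ∧ ¬ ℓ ∣ M := by
    intro ℓ hℓ
    rw [hPs, mem_filter, mem_range] at hℓ
    exact ⟨hℓ.2.1, hℓ.2.2.1, by omega, hℓ.2.2.2⟩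
  have hJA : (bb K)^A0 ≤ J := by
    have : (bb K)^A0 ≤ X / M := by
      rw [Nat.le_div_iff_mul_le hM]; exact hX
    omega
  have hcop : ∀ ℓ ∈ Ps, Nat.Coprime M (ℓ^2) := by
    intro ℓ hℓ
    refine Nat.Coprime.pow_right 2 ?_
    rw [Nat.coprime_comm, (hPs1 ℓ hℓ).1.coprime_iff_not_dvd]
    exact (hPs1 ℓ hℓ).2.2.2
  have hper : ∀ ℓ ∈ Ps, ∀ j, EV l A B ℓ (w0 + M * j) ↔ EV l A B ℓ (w0 + M * (j % ℓ^2)) := by
    intro ℓ _ j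
    rw [EV_per l A B ℓ (w0 + M * j), EV_per l A B ℓ (w0 + M * (j % ℓ^2))]
    have : (w0 + M * j) % ℓ^2 = (w0 + M * (j % ℓ^2)) % ℓ^2 :=
      (Nat.ModEq.mul_left M (Nat.mod_modEq j (ℓ^2)).symm).add_left w0
    rw [this]
  have hfin := hs Ps K J (fun ℓ j => EV l A B ℓ (w0 + M * j)) (gV l A B) hJA
    (fun ℓ hℓ => ⟨(hPs1 ℓ hℓ).1, by have := (hPs1 ℓ hℓ).2.1; omega, (hPs1 ℓ hℓ).2.2.1⟩) hper
    (fun ℓ hℓ => by
      have := card_affine M w0 (ℓ^2) (hcop ℓ hℓ) (EV l A B ℓ) (fun x => EV_per l A B ℓ x)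
      rw [this]
      exact EV_card l A B ℓ (hPs1 ℓ hℓ).1 hl (hPs1 ℓ hℓ).2.1)
    (fun ℓ hℓ => gV_le l A B ℓ (hPs1 ℓ hℓ).1 (by have := (hPs1 ℓ hℓ).2.1; omega))
  have hcong : ∀ x ∈ S, x = w0 + M * (x / M) := by
    intro x hx
    rw [hS, mem_filter] at hx
    rw [← hx.2.1]
    exact (Nat.mod_add_div x M).symm
  have hScard : (S.card : ℝ) ≤
      (((range J).filter (fun j => ∀ p ∈ Ps, ¬ EV l A B p (w0 + M * j))).card : ℝ) := by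
    refine Nat.cast_le.mpr ?_
    refine card_le_card_of_injOn (fun x => x / M) ?_ ?_
    · intro x hx
      have hxS := hx
      rw [mem_coe] at hxS
      have hxe := hcong x hxS
      rw [mem_coe, hS, mem_filter, mem_range] at hx
      rw [mem_coe, mem_filter, mem_range]
      refine ⟨?_, ?_⟩
      · have : x / M ≤ X / M := Nat.div_le_div_right (by omega)
        show x / M < J
        omega
      · intro ℓ hℓ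
        obtain ⟨h1, h2, h3, h4⟩ := hPs1 ℓ hℓ
        rw [← hxe]
        exact hx.2.2 ℓ h1 h2 h3 h4
    · intro x hx x' hx' hxx
      rw [mem_coe] at hx hx'
      have h1 := hcong x hx
      have h2 := hcong x' hx'
      simp only at hxx
      rw [h1, h2, hxx]
  have hsum : ∑ k ∈ range K, ∑ ℓ ∈ PB k, (if ℓ ≤ 4 * l ∨ ℓ ∣ M then (0:ℝ) else wV l A B ℓ) / ℓ
      ≤ ∑ ℓ ∈ Ps, (gV l A B ℓ : ℝ) / (ℓ:ℝ)^2 + 1 := by
    have h0 : ∀ ℓ : ℕ, 0 ≤ (if ℓ ≤ 4 * l ∨ ℓ ∣ M then (0:ℝ) else wV l A B ℓ) / ℓ := by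
      intro ℓ
      have : (0:ℝ) ≤ (if ℓ ≤ 4 * l ∨ ℓ ∣ M then (0:ℝ) else wV l A B ℓ) := by
        split_ifs
        · norm_num
        · exact wV_nonneg _ _ _ _
      positivity
    refine (block_sum_le K _ h0).trans ?_
    have h1 : ∑ ℓ ∈ (range (bb K + 1)).filter Nat.Prime,
        (if ℓ ≤ 4 * l ∨ ℓ ∣ M then (0:ℝ) else wV l A B ℓ) / ℓ = ∑ ℓ ∈ Ps, wV l A B ℓ / ℓ := by
      rw [hPs, ← filter_filter, sum_filter (fun ℓ => 4 * l < ℓ ∧ ¬ ℓ ∣ M)]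
      refine sum_congr rfl fun ℓ _ => ?_
      by_cases h : ℓ ≤ 4 * l ∨ ℓ ∣ M
      · rw [if_pos h, if_neg (by push Not; intro h5; rcases h with h | h; omega; exact h)]
        simp
      · rw [if_neg h, if_pos (by push Not at h; exact h)]
    rw [h1]
    calc ∑ ℓ ∈ Ps, wV l A B ℓ / ℓ ≤ ∑ ℓ ∈ Ps, ((gV l A B ℓ : ℝ) / (ℓ:ℝ)^2 + 1 / (ℓ:ℝ)^2) :=
          sum_le_sum fun ℓ hℓ => gV_ge l A B ℓ (hPs1 ℓ hℓ).1 (by have := (hPs1 ℓ hℓ).2.1; omega)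
      _ = ∑ ℓ ∈ Ps, (gV l A B ℓ : ℝ) / (ℓ:ℝ)^2 + ∑ ℓ ∈ Ps, 1 / (ℓ:ℝ)^2 := sum_add_distrib
      _ ≤ ∑ ℓ ∈ Ps, (gV l A B ℓ : ℝ) / (ℓ:ℝ)^2 + 1 := by
          have := sum_inv_sq_le Ps (fun ℓ hℓ => (hPs1 ℓ hℓ).1.two_le)
          linarith
  have hJr : (J:ℝ) ≤ 2 * (X / M) := by
    have h1 : (1:ℝ) ≤ (X:ℝ) / M := by
      rw [le_div_iff₀ (by exact_mod_cast hM), one_mul]
      have h2 : M ≤ X := by
        refine le_trans ?_ hX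
        exact Nat.le_mul_of_pos_left _ (pow_pos (bb_pos K) _)
      exact_mod_cast h2
    have h3 : ((X / M : ℕ) : ℝ) ≤ (X:ℝ) / (M:ℝ) := Nat.cast_div_le
    rw [hJ, Nat.cast_add, Nat.cast_one]
    linarith
  refine hScard.trans (hfin.trans ?_)
  have he : Real.exp (- ∑ ℓ ∈ Ps, (gV l A B ℓ : ℝ) / (ℓ:ℝ)^2) ≤ Real.exp 1 *
      Real.exp (- ∑ k ∈ range K, ∑ ℓ ∈ PB k,
        (if ℓ ≤ 4 * l ∨ ℓ ∣ M then (0:ℝ) else wV l A B ℓ) / ℓ) := by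
    rw [← Real.exp_add]
    apply Real.exp_le_exp.mpr
    linarith
  calc C * J * Real.exp (- ∑ ℓ ∈ Ps, (gV l A B ℓ : ℝ) / (ℓ:ℝ)^2)
      ≤ C * (2 * (X / M)) * (Real.exp 1 * Real.exp (- ∑ k ∈ range K, ∑ ℓ ∈ PB k,
        (if ℓ ≤ 4 * l ∨ ℓ ∣ M then (0:ℝ) else wV l A B ℓ) / ℓ)) := by
        refine mul_le_mul (mul_le_mul_of_nonneg_left hJr hC.le) he (Real.exp_pos _).le ?_
        positivity
    _ = _ := by ring

end Pool.Agent.H24.SH
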