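import Mathlib
import Pool.Agent.H24.UM.Fixed
import Pool.Agent.H66.Gol.Blk
import Pool.Agent.H66.Gol.Low
import Pool.Agent.H66.Gol.FSum
import Pool.Agent.H95.Gol.Sieve

/-!
One-sided bounds, on average over primes `p`, for the sums of `F (D p) l / l` over arbitrary
windows of blocks.
-/

namespace Pool.Agent.H24.SH

open Finset Pool.Agent.H95.Gol Pool.Agent.H24.UM Pool.Agent.H70.SymDes

lemma F_eq (D : ℤ) (n : ℕ) : F D n = jr D n := by
  unfold F jr jc; split_ifs <;> simp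

lemma not_prime_bb (k : ℕ) (hk : 1 ≤ k) : ¬ (bb k).Prime := by
  intro h
  have h1 : (2:ℕ) ∣ bb k := by
    unfold bb; exact dvd_pow_self 2 (by positivity)
  have h2 := (Nat.prime_dvd_prime_iff_eq Nat.prime_two h).mp h1
  have h3 : bb 1 ≤ bb k := bb_mono hk
  have h4 : bb 1 = 4 := rfl
  omega

/-- the odd primes between two scales -/
lemma PP_sdiff (a b : ℕ) : PP b \ PP a = (Ico a b).biUnion PB := by
  ext p
  rw [mem_sdiff, mem_PP, mem_PP, mem_biUnion]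
  constructor
  · rintro ⟨⟨h1, h2, h3⟩, h4⟩
    have hp2 : 2 < p := by have := h3.two_le; omega
    obtain ⟨k, hk, hpk⟩ := exists_block h3 hp2 (show p ≤ bb b from h2.le)
    refine ⟨k, mem_Ico.mpr ⟨?_, hk⟩, hpk⟩
    by_contra hka
    push Not at hka
    apply h4
    refine ⟨h1, ?_, h3⟩
    have h5 := (mem_PB.mp hpk).1.2
    have h6 : bb (k+1) ≤ bb a := bb_mono hka
    have h7 : bb a = 2^(2^a) := rfl
    rcases (h5.trans h6).lt_or_eq with h8 | h8
    · rwa [h7] at h8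
    · exact absurd (h8 ▸ h3) (not_prime_bb a (by omega))
  · rintro ⟨k, hk, hpk⟩
    rw [mem_Ico] at hk
    rw [mem_PB] at hpk
    obtain ⟨⟨h1, h2⟩, h3⟩ := hpk
    have h4 := two_le_bb k
    have h5 : bb (k+1) ≤ bb b := bb_mono hk.2
    have h6 : bb a ≤ bb k := bb_mono hk.1
    have h7 : bb a = 2^(2^a) := rfl
    have h8 : bb b = 2^(2^b) := rfl
    refine ⟨⟨by omega, ?_, h3⟩, ?_⟩
    · rcases (h2.trans h5).lt_or_eq with h9 | h9
      · rwa [h8] at h9
      · exact absurd (h9 ▸ h3) (not_prime_bb b (by omega))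
    · rintro ⟨_, h9, _⟩
      omega

lemma sum_PP_sdiff (a b : ℕ) (f : ℕ → ℝ) :
    ∑ p ∈ PP b \ PP a, f p = ∑ k ∈ Ico a b, ∑ p ∈ PB k, f p := by
  rw [PP_sdiff, sum_biUnion fun x _ y _ hxy => PB_disjoint hxy]

/-- constants of the block form of Mertens' theorem -/
lemma blk_bounds : ∃ C0 : ℝ, 0 < C0 ∧ (∀ k : ℕ, ∑ l ∈ PB k, (1:ℝ)/l ≤ Real.log 2 + C0) ∧
    (∀ a b : ℕ, a ≤ b → ∑ k ∈ Ico a b, ∑ l ∈ PB k, (1:ℝ)/l ≤ ((b:ℝ) - a) * Real.log 2 + C0) ∧
    (∀ a b : ℕ, a ≤ b → ((b:ℝ) - a) * Real.log 2 - C0 ≤ ∑ k ∈ Ico a b, ∑ l ∈ PB k, (1:ℝ)/l) := by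
  obtain ⟨C, hC, h⟩ := Pool.Agent.H66.Gol.blk
  have hgeo : ∀ a b : ℕ, C * ∑ k ∈ Ico a b, (1:ℝ)/2^k ≤ 2 * C := by
    intro a b
    have h1 := geom_half' a b
    have h2 : (2:ℝ)/2^a ≤ 2 := div_le_self (by norm_num) (one_le_pow₀ (by norm_num))
    nlinarith
  refine ⟨2 * C, by positivity, fun k => ?_, fun a b hab => ?_, fun a b hab => ?_⟩
  · have h1 := (abs_le.mp (h k)).2
    have h2 : C / 2^k ≤ C := div_le_self hC.le (one_le_pow₀ (by norm_num))
    linarith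
  · have h1 : ∑ k ∈ Ico a b, ∑ l ∈ PB k, (1:ℝ)/l ≤ ∑ k ∈ Ico a b, (Real.log 2 + C * (1/2^k)) := by
      refine sum_le_sum fun k _ => ?_
      have := (abs_le.mp (h k)).2
      rw [mul_one_div]; linarith
    rw [sum_add_distrib, sum_const, Nat.card_Ico, nsmul_eq_mul, ← mul_sum, Nat.cast_sub hab] at h1
    have := hgeo a b
    linarith
  · have h1 : ∑ k ∈ Ico a b, (Real.log 2 - C * (1/2^k)) ≤ ∑ k ∈ Ico a b, ∑ l ∈ PB k, (1:ℝ)/l := by
      refine sum_le_sum fun k _ => ?_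
      have := (abs_le.mp (h k)).1
      rw [mul_one_div]; linarith
    rw [sum_sub_distrib, sum_const, Nat.card_Ico, nsmul_eq_mul, ← mul_sum, Nat.cast_sub hab] at h1
    have := hgeo a b
    linarith

/-- high windows -/
lemma window_high : ∃ C : ℝ, 0 ≤ C ∧ ∀ (E : ℤ) (a b : ℕ), ¬ IsSquare E → 2 ≤ a → a ≤ b →
    Adm E (a-2) → ∑ k ∈ Ico a b, Dk E k ≤ C := by
  obtain ⟨C0, hC0, _, _, hlow⟩ := blk_bounds
  obtain ⟨C1, hC1, hu⟩ := uniform
  have hl2 := Real.log_two_lt_d9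
  refine ⟨C0 + C1 + 2, by positivity, fun E a b hE ha hab hadm => ?_⟩
  have h1 := hu E b (a-2) hE hadm (by omega)
  rw [show a - 2 + 2 = a by omega, sum_PP_sdiff, Nat.cast_sub ha] at h1
  have h2 : ∑ k ∈ Ico a b, ∑ p ∈ PB k, (1 + jr E p)/p =
      ∑ k ∈ Ico a b, ∑ p ∈ PB k, (1:ℝ)/p + ∑ k ∈ Ico a b, Dk E k := by
    rw [← sum_add_distrib]
    refine sum_congr rfl fun k _ => ?_
    unfold Dk
    rw [← sum_add_distrib]
    refine sum_congr rfl fun p _ => ?_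
    rw [F_eq]; ring
  rw [h2] at h1
  have h3 := hlow a b hab
  push_cast at h1
  linarith

lemma abs_Dk_le (E : ℤ) (k : ℕ) : |Dk E k| ≤ ∑ l ∈ PB k, (1:ℝ)/l := by
  unfold Dk
  refine (abs_sum_le_sum_abs _ _).trans (sum_le_sum fun l _ => ?_)
  rw [abs_div, Nat.abs_cast]
  exact div_le_div_of_nonneg_right (Pool.Agent.H66.Gol.abs_F_le E l) (Nat.cast_nonneg _)

/-- variance for a twisted character, over a dyadic interval -/
lemma low_twist (D : ℤ) (hD : D ≠ 0) (P k : ℕ) :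
    ∑ a ∈ Ioc P (2 * P), (Dk (D * a) k)^2 ≤ (D.natAbs * P : ℕ) / bb k + (bb (k+1) : ℝ)^2 := by
  have hd : 0 < D.natAbs := Int.natAbs_pos.mpr hD
  obtain ⟨s, hs, hDs⟩ : ∃ s : ℤ, (s = 1 ∨ s = -1) ∧ D = s * D.natAbs := by
    rcases Int.natAbs_eq D with h | h
    · exact ⟨1, Or.inl rfl, by rw [one_mul]; exact h⟩
    · exact ⟨-1, Or.inr rfl, by rw [neg_one_mul]; exact h⟩
  refine le_trans ?_ (Pool.Agent.H66.Gol.low s hs (D.natAbs * P) k)
  have h1 : ∑ a ∈ Ioc P (2 * P), (Dk (D * a) k)^2 =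
      ∑ b ∈ (Ioc P (2 * P)).image (fun a => D.natAbs * a), (Dk (s * b) k)^2 := by
    rw [sum_image (fun x _ y _ hxy => Nat.eq_of_mul_eq_mul_left hd hxy)]
    refine sum_congr rfl fun a _ => ?_
    congr 2
    conv_lhs => rw [hDs]
    push_cast
    ring
  rw [h1]
  refine sum_le_sum_of_subset_of_nonneg ?_ fun _ _ _ => sq_nonneg _
  intro b hb
  rw [mem_image] at hb
  obtain ⟨a, ha, rfl⟩ := hb
  rw [mem_Ioc] at ha ⊢
  constructor
  · exact Nat.mul_lt_mul_of_pos_left ha.1 hd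
  · calc D.natAbs * a ≤ D.natAbs * (2 * P) := Nat.mul_le_mul_left _ ha.2
      _ = 2 * (D.natAbs * P) := by ring

/-- an integer block is covered by dyadic intervals -/
lemma sum_block_le (i : ℕ) (f : ℕ → ℝ) (hf : ∀ a, 0 ≤ f a) :
    ∑ a ∈ Ioc (bb i) (bb (i+1)), f a / a ≤
      ∑ m ∈ Ico (2^i) (2^(i+1)), (∑ a ∈ Ioc (2^m) (2 * 2^m), f a) / 2^m := by
  have h1 : ∀ a ∈ Ioc (bb i) (bb (i+1)), Nat.log 2 (a-1) ∈ Ico (2^i) (2^(i+1)) := by
    intro a ha
    rw [mem_Ioc] at ha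
    have h2 := two_le_bb i
    have h3 : bb i = 2^(2^i) := rfl
    have h4 : bb (i+1) = 2^(2^(i+1)) := rfl
    rw [mem_Ico]
    constructor
    · exact Nat.le_log_of_pow_le (by norm_num) (by omega)
    · exact Nat.log_lt_of_lt_pow (by omega) (by omega)
  rw [← sum_fiberwise_of_maps_to h1]
  refine sum_le_sum fun m _ => ?_
  rw [sum_div]
  calc ∑ a ∈ (Ioc (bb i) (bb (i+1))).filter (fun a => Nat.log 2 (a-1) = m), f a / a
      ≤ ∑ a ∈ (Ioc (bb i) (bb (i+1))).filter (fun a => Nat.log 2 (a-1) = m), f a / 2^m := by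
        refine sum_le_sum fun a ha => ?_
        rw [mem_filter, mem_Ioc] at ha
        have h2 := two_le_bb i
        have h3 : 2^m ≤ a := by
          have := Nat.pow_log_le_self 2 (show a - 1 ≠ 0 by omega)
          rw [ha.2] at this; omega
        exact div_le_div_of_nonneg_left (hf a) (by positivity) (by exact_mod_cast h3)
    _ ≤ ∑ a ∈ Ioc (2^m) (2 * 2^m), f a / 2^m := by
        refine sum_le_sum_of_subset_of_nonneg ?_ fun a _ _ => div_nonneg (hf a) (by positivity)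
        intro a ha
        rw [mem_filter, mem_Ioc] at ha
        have h2 := two_le_bb i
        have h3 := Nat.pow_log_le_self 2 (show a - 1 ≠ 0 by omega)
        have h4 := Nat.lt_pow_succ_log_self (b := 2) (by norm_num) (a-1)
        rw [ha.2] at h3 h4
        rw [pow_succ] at h4
        rw [mem_Ioc]
        omega

lemma sq_le_four_two_pow (t : ℕ) : t^2 ≤ 4 * 2^t := by
  induction t with
  | zero => norm_num
  | succ t ih =>
    rcases Nat.lt_or_ge t 3 with h | h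
    · interval_cases t <;> norm_num
    · rw [pow_succ 2 t]; nlinarith

/-- exponential against doubly exponential -/
lemma pow_le_bb (s i : ℕ) : 2^(s * i) ≤ 2^(16 * s^2 + 3 * s) * bb (i/4) := by
  unfold bb
  rw [← pow_add]
  apply Nat.pow_le_pow_right (by norm_num)
  set t := i/4 with ht
  have h1 : i ≤ 4 * t + 3 := by omega
  have h2 := sq_le_four_two_pow t
  have h3 : s * i ≤ s * (4 * t + 3) := Nat.mul_le_mul_left s h1
  have h4 : s * (4 * t) ≤ 16 * s^2 + 2^t := by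
    zify at h2 ⊢
    nlinarith [sq_nonneg ((t:ℤ) - 8 * s)]
  calc s * i ≤ s * (4 * t) + 3 * s := by rw [mul_add] at h3; omega
    _ ≤ 16 * s^2 + 3 * s + 2^t := by omega

lemma nonsq_mul (D : ℤ) (hD : D ≠ 0) (p : ℕ) (hp : p.Prime) (hDp : D.natAbs < p) :
    ¬ IsSquare (D * p) := by
  rintro ⟨r, hr⟩
  have hpi : Prime (p:ℤ) := Nat.prime_iff_prime_int.mp hp
  have h1 : (p:ℤ) ∣ r := by
    have : (p:ℤ) ∣ r * r := ⟨D, by rw [← hr]; ring⟩
    rcases hpi.dvd_or_dvd this with h | h <;> exact h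
  obtain ⟨c, hc⟩ := h1
  have hp0 : (p:ℤ) ≠ 0 := hpi.ne_zero
  have h2 : D = p * (c * c) := by
    have : D * p = (p * (c * c)) * p := by rw [hr, hc]; ring
    exact mul_right_cancel₀ hp0 this
  have h3 : p ∣ D.natAbs := by
    rw [← Int.natCast_dvd]; exact ⟨_, h2⟩
  have := Nat.le_of_dvd (Int.natAbs_pos.mpr hD) h3
  omega

lemma adm_of (D : ℤ) (j p : ℕ) (hj : 960 * D.natAbs + 2 ≤ j) (hp : p ≤ bb (j-1)) :
    Adm (D * p) j := by
  unfold Adm
  have hl2 := Real.log_two_lt_d9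
  have hl0 : 0 ≤ Real.log 2 := Real.log_nonneg (by norm_num)
  set d := D.natAbs with hd
  set x : ℕ := 2^(j-1) with hx
  have h1 : (2:ℝ)^j = 2 * x := by
    rw [hx]; push_cast
    rw [← pow_succ']; congr 1; omega
  have hxj : j ≤ x := by
    have := Nat.lt_two_pow_self (n := j - 1)
    omega
  have h2 : (x:ℝ)^2 ≤ 4 * 2^x := by exact_mod_cast sq_le_four_two_pow x
  have h3 : (960 * d + 2 : ℝ) ≤ x := by exact_mod_cast (by omega : 960 * d + 2 ≤ x)
  have hd0 : (0:ℝ) ≤ d := Nat.cast_nonneg _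
  have h4 : (p:ℝ) ≤ 2^x := by
    have : bb (j-1) = 2^x := rfl
    rw [this] at hp; exact_mod_cast hp
  have e1 : ((4 * (D * p).natAbs : ℕ) : ℝ) = 4 * d * p := by
    rw [Int.natAbs_mul, Int.natAbs_natCast, ← hd]; push_cast; ring
  have e2 : (2:ℝ)^(2^j) = 2^x * 2^x := by
    rw [← pow_add]; congr 1
    rw [hx, ← two_mul, ← pow_succ']; congr 1; omega
  rw [e1, e2, h1]
  have h5 : 80 * (d:ℝ) * (1 + 2 * x * Real.log 2) ≤ 2^x := by
    have h6 : 1 + 2 * (x:ℝ) * Real.log 2 ≤ 3 * x := by nlinarith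
    have h7 : 80 * (d:ℝ) * (1 + 2 * x * Real.log 2) ≤ 80 * d * (3 * x) :=
      mul_le_mul_of_nonneg_left h6 (by positivity)
    nlinarith
  calc 20 * (4 * (d:ℝ) * p) * (1 + 2 * x * Real.log 2)
      = p * (80 * (d:ℝ) * (1 + 2 * x * Real.log 2)) := by ring
    _ ≤ 2^x * 2^x := mul_le_mul h4 h5 (by positivity) (by positivity)

end Pool.Agent.H24.SH
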