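import Mathlib
import Pool.Agent.H24.SH.Wt

/-!
The weight theorem: for most primes `p` the sums of `F (D p) l / l` over all windows of blocks are
bounded above.
-/

namespace Pool.Agent.H24.SH

open Finset Classical Pool.Agent.H95.Gol Pool.Agent.H24.UM Pool.Agent.H70.SymDes

/-- the exceptional primes -/
def Bad (D : ℤ) (i p : ℕ) : Prop :=
  ∃ k : ℕ, i/4 ≤ k ∧ k + 4 ≤ i ∧ 1/((i:ℝ)+1) < |Dk (D * p) k|

lemma bad_one (D : ℤ) (hD : D ≠ 0) (i k : ℕ) (hk : i/4 ≤ k) (hki : k + 4 ≤ i) :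
    ∑ a ∈ Ioc (bb i) (bb (i+1)), (Dk (D * a) k)^2 / a ≤ 2^i * ((D.natAbs + 1) / bb (i/4)) := by
  set d := D.natAbs with hd
  refine (sum_block_le i (fun a => (Dk (D * a) k)^2) (fun _ => sq_nonneg _)).trans ?_
  have hcard : (Ico (2^i) (2^(i+1))).card = 2^i := by
    rw [Nat.card_Ico, pow_succ]; omega
  have h : ∀ m ∈ Ico (2^i) (2^(i+1)), (∑ a ∈ Ioc (2^m : ℕ) (2 * 2^m), (Dk (D * a) k)^2) / (2:ℝ)^m ≤
      ((d:ℝ) + 1) / bb (i/4) := by
    intro m hm
    rw [mem_Ico] at hm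
    have h1 := low_twist D hD (2^m) k
    have hm0 : (0:ℝ) < 2^m := by positivity
    rw [div_le_iff₀ hm0]
    refine h1.trans ?_
    have hb0 : (0:ℝ) < bb (i/4) := by exact_mod_cast bb_pos _
    have hbk : (bb (i/4) : ℝ) ≤ bb k := by exact_mod_cast bb_mono hk
    have e1 : ((d * 2^m : ℕ) : ℝ) / bb k ≤ d * 2^m / bb (i/4) := by
      push_cast
      exact div_le_div_of_nonneg_left (by positivity) hb0 hbk
    have e2 : (bb (k+1) : ℝ)^2 ≤ 2^m / bb (i/4) := by
      rw [le_div_iff₀ hb0]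
      have h2 : bb (k+1)^2 * bb (i/4) ≤ 2^m := by
        rw [← bb_succ]
        have h3 : bb (k+1+1) ≤ bb (i-2) := bb_mono (by omega)
        have h4 : bb (i/4) ≤ bb (i-1) := bb_mono (by omega)
        have h5 : bb (i-2) ≤ bb (i-1) := bb_mono (by omega)
        calc bb (k+1+1) * bb (i/4) ≤ bb (i-1) * bb (i-1) := Nat.mul_le_mul (h3.trans h5) h4
          _ = bb i := by rw [← sq, ← bb_succ]; congr 1; omega
          _ ≤ 2^m := by unfold bb; exact Nat.pow_le_pow_right (by norm_num) hm.1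
      exact_mod_cast h2
    calc ((d * 2^m : ℕ) : ℝ) / bb k + (bb (k+1) : ℝ)^2 ≤ d * 2^m / bb (i/4) + 2^m / bb (i/4) := by
          linarith
      _ = (d + 1) / bb (i/4) * 2^m := by ring
  calc ∑ m ∈ Ico (2^i) (2^(i+1)), (∑ a ∈ Ioc (2^m : ℕ) (2 * 2^m), (Dk (D * a) k)^2) / (2:ℝ)^m
      ≤ ∑ m ∈ Ico (2^i) (2^(i+1)), ((d:ℝ) + 1) / (bb (i/4) : ℝ) := sum_le_sum h
    _ = 2^i * (((d:ℝ) + 1) / bb (i/4)) := by rw [sum_const, hcard, nsmul_eq_mul]; push_cast; ring

lemma bad_sum (D : ℤ) (hD : D ≠ 0) (i : ℕ) :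
    ∑ p ∈ (PB i).filter (Bad D i), (1:ℝ)/p ≤ 16^i * ((D.natAbs + 1) / bb (i/4)) := by
  set d := D.natAbs with hd
  have h1 : ∀ p ∈ (PB i).filter (Bad D i), (1:ℝ)/p ≤
      ((i:ℝ)+1)^2 * ∑ k ∈ Ico (i/4) (i-3), (Dk (D * p) k)^2 / p := by
    intro p hp
    rw [mem_filter] at hp
    obtain ⟨k, hk1, hk2, hk3⟩ := hp.2
    have hp0 : (0:ℝ) < p := by exact_mod_cast (mem_PB.mp hp.1).2.pos
    have h2 : (Dk (D * p) k)^2 / p ≤ ∑ k ∈ Ico (i/4) (i-3), (Dk (D * p) k)^2 / p :=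
      single_le_sum (f := fun k => (Dk (D * p) k)^2 / p) (fun _ _ => by positivity)
        (mem_Ico.mpr ⟨hk1, by omega⟩)
    have hi : (0:ℝ) < (i:ℝ) + 1 := by positivity
    have h3 : 1 ≤ ((i:ℝ)+1)^2 * (Dk (D * p) k)^2 := by
      rw [div_lt_iff₀ hi] at hk3
      rw [← mul_pow, ← sq_abs, abs_mul, abs_of_pos hi]
      have : 1 ≤ ((i:ℝ)+1) * |Dk (D * p) k| := by linarith
      exact one_le_pow₀ this
    calc (1:ℝ)/p ≤ (((i:ℝ)+1)^2 * (Dk (D * p) k)^2) / p := by gcongr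
      _ = ((i:ℝ)+1)^2 * ((Dk (D * p) k)^2 / p) := by ring
      _ ≤ _ := mul_le_mul_of_nonneg_left h2 (by positivity)
  have hi2 : ((i:ℝ)+1) ≤ 2^i := by
    have : i + 1 ≤ 2^i := Nat.lt_two_pow_self
    exact_mod_cast this
  have hi0 : (0:ℝ) ≤ (i:ℝ) + 1 := by positivity
  have hX0 : (0:ℝ) ≤ 2^i * (((d:ℝ) + 1) / bb (i/4)) := by positivity
  calc ∑ p ∈ (PB i).filter (Bad D i), (1:ℝ)/p
      ≤ ∑ p ∈ (PB i).filter (Bad D i), ((i:ℝ)+1)^2 * ∑ k ∈ Ico (i/4) (i-3), (Dk (D * p) k)^2 / p :=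
        sum_le_sum h1
    _ ≤ ∑ p ∈ Ioc (bb i) (bb (i+1)), ((i:ℝ)+1)^2 * ∑ k ∈ Ico (i/4) (i-3), (Dk (D * p) k)^2 / p := by
        refine sum_le_sum_of_subset_of_nonneg ?_ fun p _ _ => ?_
        · exact (filter_subset _ _).trans (filter_subset _ _)
        · exact mul_nonneg (by positivity) (sum_nonneg fun _ _ => by positivity)
    _ = ((i:ℝ)+1)^2 * ∑ k ∈ Ico (i/4) (i-3), ∑ p ∈ Ioc (bb i) (bb (i+1)), (Dk (D * p) k)^2 / p := by
        rw [← mul_sum, sum_comm]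
    _ ≤ ((i:ℝ)+1)^2 * ∑ k ∈ Ico (i/4) (i-3), 2^i * (((d:ℝ) + 1) / bb (i/4)) := by
        refine mul_le_mul_of_nonneg_left (sum_le_sum fun k hk => ?_) (by positivity)
        rw [mem_Ico] at hk
        exact bad_one D hD i k hk.1 (by omega)
    _ = ((i:ℝ)+1)^2 * ((Ico (i/4) (i-3)).card * (2^i * (((d:ℝ) + 1) / bb (i/4)))) := by
        rw [sum_const, nsmul_eq_mul]
    _ ≤ ((i:ℝ)+1)^2 * (((i:ℝ)+1) * (2^i * ((d + 1) / bb (i/4)))) := by
        refine mul_le_mul_of_nonneg_left (mul_le_mul_of_nonneg_right ?_ hX0) (by positivity)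
        rw [Nat.card_Ico]
        have : (i - 3) - i/4 ≤ i + 1 := by omega
        exact_mod_cast this
    _ = ((i:ℝ)+1)^3 * (2^i * ((d + 1) / bb (i/4))) := by ring
    _ ≤ (2^i)^3 * (2^i * ((d + 1) / bb (i/4))) :=
        mul_le_mul_of_nonneg_right (pow_le_pow_left₀ hi0 hi2 3) hX0
    _ = 16^i * ((d + 1) / bb (i/4)) := by
        rw [← mul_assoc, ← pow_succ, ← pow_mul, mul_comm i 4, pow_mul]; norm_num

/-- **the weight theorem** -/
theorem weight (D : ℤ) (hD : D ≠ 0) : ∃ (C : ℝ) (μ : ℕ → ℕ → ℝ), 0 < C ∧ (∀ i p, 0 ≤ μ i p) ∧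
    (∀ i, ∀ p ∈ PB i, D.natAbs < p → ∀ a b : ℕ, ∑ k ∈ Ico a b, Dk (D * p) k ≤ μ i p) ∧
    (∀ i, ∑ p ∈ PB i, Real.exp (μ i p) / p ≤ C * 2^(i/4)) := by
  obtain ⟨C0, hC0, hone, hup, _⟩ := blk_bounds
  obtain ⟨Cu, hCu, hwin⟩ := window_high
  have hl0 : 0 < Real.log 2 := Real.log_pos (by norm_num)
  set d := D.natAbs with hd
  set N0 := 960 * d + 2 with hN0
  set Lb := Real.log 2 + C0 with hLb
  have hLb0 : 0 < Lb := by rw [hLb]; positivity
  set T := C0 + 1 + ((N0:ℝ) + 7) * Lb + Cu with hT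
  have hT0 : 0 ≤ T := by rw [hT]; positivity
  set μ : ℕ → ℕ → ℝ := fun i p => if Bad D i p then i * Lb + T else ((i/4 : ℕ) : ℝ) * Real.log 2 + T
    with hμ
  obtain ⟨s, hs⟩ := pow_unbounded_of_one_lt (Real.exp Lb) (show (1:ℝ) < 2 by norm_num)
  refine ⟨Real.exp T * Lb + Real.exp T * ((d + 1) * 2^(16 * (s+4)^2 + 3 * (s+4))), μ,
    by positivity, ?_, ?_, ?_⟩
  · intro i p
    rw [hμ]
    simp only
    split_ifs <;> positivity
  · intro i p hp hdp a b
    have hpp := (mem_PB.mp hp).2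
    have hple := (mem_PB.mp hp).1.2
    set E : ℤ := D * p with hE
    have hEns : ¬ IsSquare E := nonsq_mul D hD p hpp hdp
    set J := max (i+2) N0 + 2 with hJ
    have hJi : i + 4 ≤ J := by rw [hJ]; omega
    have hJN : N0 + 2 ≤ J := by rw [hJ]; omega
    have hJu : J ≤ i + N0 + 4 := by rw [hJ]; omega
    have hsplit : ∑ k ∈ Ico a b, Dk E k = ∑ k ∈ (Ico a b).filter (fun k => k < J), Dk E k +
        ∑ k ∈ (Ico a b).filter (fun k => ¬ k < J), Dk E k :=
      (sum_filter_add_sum_filter_not _ _ _).symm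
    have h1 : ∑ k ∈ (Ico a b).filter (fun k => k < J), Dk E k ≤ ∑ k ∈ range J, |Dk E k| := by
      calc ∑ k ∈ (Ico a b).filter (fun k => k < J), Dk E k
          ≤ ∑ k ∈ (Ico a b).filter (fun k => k < J), |Dk E k| :=
            sum_le_sum fun k _ => le_abs_self _
        _ ≤ ∑ k ∈ range J, |Dk E k| := by
            refine sum_le_sum_of_subset_of_nonneg ?_ fun _ _ _ => abs_nonneg _
            intro k hk
            rw [mem_filter] at hk
            exact mem_range.mpr hk.2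
    have h2 : ∑ k ∈ (Ico a b).filter (fun k => ¬ k < J), Dk E k ≤ Cu := by
      have e : (Ico a b).filter (fun k => ¬ k < J) = Ico (max a J) b := by
        ext k; rw [mem_filter, mem_Ico, mem_Ico]; omega
      rw [e]
      rcases le_or_gt (max a J) b with h | h
      · refine hwin E (max a J) b hEns (by omega) h ?_
        apply adm_of D _ p (by omega)
        exact hple.trans (bb_mono (by omega))
      · rw [Ico_eq_empty (by omega), sum_empty]; exact hCu
    have habs : ∀ k, |Dk E k| ≤ Lb := fun k => (abs_Dk_le E k).trans (hone k)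
    rw [hsplit, hμ]
    simp only
    split_ifs with hbad
    · have h3 : ∑ k ∈ range J, |Dk E k| ≤ J * Lb := by
        calc ∑ k ∈ range J, |Dk E k| ≤ ∑ k ∈ range J, Lb := sum_le_sum fun k _ => habs k
          _ = J * Lb := by rw [sum_const, card_range, nsmul_eq_mul]
      have h4 : (J:ℝ) ≤ i + N0 + 4 := by exact_mod_cast hJu
      have h5 : (J:ℝ) * Lb ≤ (i + N0 + 4) * Lb := mul_le_mul_of_nonneg_right h4 hLb0.le
      rw [hT]
      nlinarith
    · set i3 := max (i/4) (i-3) with hi3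
      have e1 : ∑ k ∈ range J, |Dk E k| = ∑ k ∈ Ico 0 (i/4), |Dk E k| +
          ∑ k ∈ Ico (i/4) i3, |Dk E k| + ∑ k ∈ Ico i3 J, |Dk E k| := by
        rw [sum_Ico_consecutive _ (by omega) (by omega), sum_Ico_consecutive _ (by omega) (by omega),
          range_eq_Ico]
      have p1 : ∑ k ∈ Ico 0 (i/4), |Dk E k| ≤ ((i/4 : ℕ) : ℝ) * Real.log 2 + C0 := by
        refine (sum_le_sum fun k _ => abs_Dk_le E k).trans ?_
        have := hup 0 (i/4) (by omega)
        rw [Nat.cast_zero, sub_zero] at this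
        exact this
      have p2 : ∑ k ∈ Ico (i/4) i3, |Dk E k| ≤ 1 := by
        have h3 : ∀ k ∈ Ico (i/4) i3, |Dk E k| ≤ 1/((i:ℝ)+1) := by
          intro k hk
          rw [mem_Ico] at hk
          by_contra hcon
          push Not at hcon
          exact hbad ⟨k, hk.1, by omega, hcon⟩
        refine (sum_le_card_nsmul _ _ _ h3).trans ?_
        rw [Nat.card_Ico, nsmul_eq_mul, mul_one_div, div_le_one (by positivity)]
        have : i3 - i/4 ≤ i + 1 := by omega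
        exact_mod_cast this
      have p3 : ∑ k ∈ Ico i3 J, |Dk E k| ≤ ((N0:ℝ) + 7) * Lb := by
        refine (sum_le_card_nsmul _ _ Lb fun k _ => habs k).trans ?_
        rw [Nat.card_Ico, nsmul_eq_mul]
        refine mul_le_mul_of_nonneg_right ?_ hLb0.le
        have : J - i3 ≤ N0 + 7 := by omega
        exact_mod_cast this
      rw [hT]
      linarith
  · intro i
    have hb0 : (0:ℝ) < bb (i/4) := by exact_mod_cast bb_pos _
    have h1 : ∑ p ∈ PB i, Real.exp (μ i p) / p ≤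
        ∑ p ∈ PB i, Real.exp (((i/4 : ℕ) : ℝ) * Real.log 2 + T) * (1/p) +
        ∑ p ∈ (PB i).filter (Bad D i), Real.exp (i * Lb + T) * (1/p) := by
      rw [sum_filter, ← sum_add_distrib]
      refine sum_le_sum fun p hp => ?_
      have hp0 : (0:ℝ) < p := by exact_mod_cast (mem_PB.mp hp).2.pos
      rw [hμ]
      simp only
      split_ifs
      · rw [div_eq_mul_one_div]
        have : 0 ≤ Real.exp (((i/4 : ℕ) : ℝ) * Real.log 2 + T) * (1/p) := by positivity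
        linarith
      · rw [div_eq_mul_one_div, add_zero]
    refine h1.trans ?_
    have ea : Real.exp (((i/4 : ℕ) : ℝ) * Real.log 2 + T) = 2^(i/4) * Real.exp T := by
      rw [Real.exp_add, Real.exp_nat_mul, Real.exp_log (by norm_num)]
    have eb : Real.exp (i * Lb + T) = Real.exp Lb ^ i * Real.exp T := by
      rw [Real.exp_add, Real.exp_nat_mul]
    rw [← mul_sum, ← mul_sum, ea, eb]
    have h2 := hone i
    have h3 := bad_sum D hD i
    have h4 : Real.exp Lb ^ i ≤ (2:ℝ)^(s * i) := by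
      rw [pow_mul]; exact pow_le_pow_left₀ (Real.exp_pos _).le hs.le i
    have h5 : (2:ℝ)^((s+4) * i) ≤ 2^(16 * (s+4)^2 + 3 * (s+4)) * bb (i/4) := by
      exact_mod_cast pow_le_bb (s+4) i
    have h6 : Real.exp Lb ^ i * (16^i * ((d + 1) / bb (i/4))) ≤
        (d + 1) * 2^(16 * (s+4)^2 + 3 * (s+4)) := by
      calc Real.exp Lb ^ i * (16^i * ((d + 1) / bb (i/4)))
          ≤ (2:ℝ)^(s * i) * (16^i * ((d + 1) / bb (i/4))) :=
            mul_le_mul_of_nonneg_right h4 (by positivity)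
        _ = (2:ℝ)^((s+4) * i) * ((d + 1) / bb (i/4)) := by
            have : (16:ℝ)^i = 2^(4 * i) := by rw [pow_mul]; norm_num
            rw [this, ← mul_assoc, ← pow_add, add_mul]
        _ ≤ (2^(16 * (s+4)^2 + 3 * (s+4)) * bb (i/4)) * ((d + 1) / bb (i/4)) :=
            mul_le_mul_of_nonneg_right h5 (by positivity)
        _ = (d + 1) * 2^(16 * (s+4)^2 + 3 * (s+4)) := by field_simp
    have h7 : (1:ℝ) ≤ 2^(i/4) := one_le_pow₀ (by norm_num)
    have hT1 := Real.exp_pos T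
    calc 2^(i/4) * Real.exp T * ∑ p ∈ PB i, (1:ℝ)/p + Real.exp Lb ^ i * Real.exp T *
          ∑ p ∈ (PB i).filter (Bad D i), (1:ℝ)/p
        ≤ 2^(i/4) * Real.exp T * Lb + Real.exp Lb ^ i * Real.exp T *
          (16^i * ((d + 1) / bb (i/4))) := by
          refine add_le_add (mul_le_mul_of_nonneg_left h2 (by positivity))
            (mul_le_mul_of_nonneg_left h3 (by positivity))
      _ = 2^(i/4) * (Real.exp T * Lb) + Real.exp T * (Real.exp Lb ^ i *
          (16^i * ((d + 1) / bb (i/4)))) := by ring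
      _ ≤ 2^(i/4) * (Real.exp T * Lb) + Real.exp T * ((d + 1) * 2^(16 * (s+4)^2 + 3 * (s+4))) := by
          have := mul_le_mul_of_nonneg_left h6 hT1.le
          linarith
      _ ≤ 2^(i/4) * (Real.exp T * Lb) + 2^(i/4) *
          (Real.exp T * ((d + 1) * 2^(16 * (s+4)^2 + 3 * (s+4)))) := by
          have : 0 ≤ Real.exp T * (((d:ℝ) + 1) * 2^(16 * (s+4)^2 + 3 * (s+4))) := by positivity
          nlinarith
      _ = _ := by ring

end Pool.Agent.H24.SH
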