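import Mathlib
import Pool.Agent.H24.SH.Wt2
import Pool.Agent.H24.SH.Cnt

/-!
Lower bounds for the exponents occurring in the sieve.
-/

namespace Pool.Agent.H24.SH

open Finset Classical Pool.Agent.H95.Gol Pool.Agent.H24.UM Pool.Agent.H70.SymDes

/-- block sums for a fixed character -/
lemma fixed_blocks (E : ℤ) (hE : ¬ IsSquare E) : ∃ C : ℝ, 0 ≤ C ∧ ∀ a b : ℕ, a ≤ b →
    |∑ k ∈ Ico a b, Dk E k| ≤ C := by
  obtain ⟨C, hC, h⟩ := fixed_char E hE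
  refine ⟨2 * C, by positivity, fun a b hab => ?_⟩
  have h1 : ∑ k ∈ Ico a b, Dk E k = ∑ p ∈ PP b, jr E p / p - ∑ p ∈ PP a, jr E p / p := by
    have h2 := sum_PP_sdiff a b (fun p => jr E p / p)
    have h3 := sum_sdiff (PP_mono hab) (f := fun p => jr E p / p)
    have h4 : ∑ k ∈ Ico a b, Dk E k = ∑ k ∈ Ico a b, ∑ p ∈ PB k, jr E p / p := by
      refine sum_congr rfl fun k _ => ?_
      unfold Dk
      exact sum_congr rfl fun p _ => by rw [F_eq]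
    rw [h4, ← h2]
    linarith
  have ha := abs_le.mp (h (2^(2^a)))
  have hb := abs_le.mp (h (2^(2^b)))
  rw [h1, abs_le]
  unfold PP
  constructor <;> linarith

lemma sum_eq_le_one (a b r : ℕ) : ∑ k ∈ Ico a b, ∑ ℓ ∈ PB k, (if ℓ = r then (1:ℝ) else 0) ≤ 1 := by
  rw [← sum_biUnion fun x _ y _ hxy => PB_disjoint hxy, sum_ite_eq' ]
  split_ifs <;> norm_num

/-- lower bound for a sum over small primes and nonresidues -/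
lemma part (w : ℕ → ℝ) (hw0 : ∀ ℓ, 0 ≤ w ℓ) (hw2 : ∀ ℓ, w ℓ ≤ 2) (Cw : ℝ) (hCw : 0 ≤ Cw)
    (hsum : ∀ a b : ℕ, a ≤ b →
      ((b:ℝ) - a) * Real.log 2 - Cw ≤ ∑ k ∈ Ico a b, ∑ ℓ ∈ PB k, w ℓ / ℓ)
    (E : ℤ) (r : ℕ) (hr : ∀ ℓ : ℕ, ℓ.Prime → 2 < ℓ → F E ℓ = 0 → ℓ = r) (m : ℝ)
    (hm : ∀ a b : ℕ, ∑ k ∈ Ico a b, ∑ ℓ ∈ PB k, w ℓ * F E ℓ / ℓ ≤ m)
    (i K t : ℕ) (hi : i < K) (ht : t ∈ PB i) :
    i * Real.log 2 + 1/2 * ((K:ℝ) - i) * Real.log 2 - 1/2 * m - (2 * Cw + 2) ≤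
      ∑ k ∈ range K, ∑ ℓ ∈ PB k, (if ℓ < t ∨ F E ℓ = -1 then w ℓ else 0) / ℓ := by
  have hl2 := Real.log_two_lt_d9
  have hl0 : 0 ≤ Real.log 2 := Real.log_nonneg (by norm_num)
  have hterm0 : ∀ ℓ : ℕ, 0 ≤ (if ℓ < t ∨ F E ℓ = -1 then w ℓ else 0) / (ℓ:ℝ) := by
    intro ℓ
    have := hw0 ℓ
    split_ifs <;> positivity
  have e1 : ∑ k ∈ range K, ∑ ℓ ∈ PB k, (if ℓ < t ∨ F E ℓ = -1 then w ℓ else 0) / (ℓ:ℝ) =
      ∑ k ∈ Ico 0 i, ∑ ℓ ∈ PB k, (if ℓ < t ∨ F E ℓ = -1 then w ℓ else 0) / (ℓ:ℝ) +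
      ∑ k ∈ Ico i (i+1), ∑ ℓ ∈ PB k, (if ℓ < t ∨ F E ℓ = -1 then w ℓ else 0) / (ℓ:ℝ) +
      ∑ k ∈ Ico (i+1) K, ∑ ℓ ∈ PB k, (if ℓ < t ∨ F E ℓ = -1 then w ℓ else 0) / (ℓ:ℝ) := by
    rw [sum_Ico_consecutive _ (by omega) (by omega), sum_Ico_consecutive _ (by omega) (by omega),
      range_eq_Ico]
  have p1 : ∑ k ∈ Ico 0 i, ∑ ℓ ∈ PB k, w ℓ / ℓ ≤
      ∑ k ∈ Ico 0 i, ∑ ℓ ∈ PB k, (if ℓ < t ∨ F E ℓ = -1 then w ℓ else 0) / (ℓ:ℝ) := by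
    refine sum_le_sum fun k hk => sum_le_sum fun ℓ hℓ => ?_
    rw [mem_Ico] at hk
    have h1 := (mem_PB.mp hℓ).1.2
    have h2 := (mem_PB.mp ht).1.1
    have h3 : bb (k+1) ≤ bb i := bb_mono hk.2
    rw [if_pos (Or.inl (by omega))]
  have p2 : 0 ≤ ∑ k ∈ Ico i (i+1), ∑ ℓ ∈ PB k, (if ℓ < t ∨ F E ℓ = -1 then w ℓ else 0) / (ℓ:ℝ) :=
    sum_nonneg fun k _ => sum_nonneg fun ℓ _ => hterm0 ℓ
  have p3 : 1/2 * ∑ k ∈ Ico (i+1) K, ∑ ℓ ∈ PB k, w ℓ / ℓ -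
      1/2 * ∑ k ∈ Ico (i+1) K, ∑ ℓ ∈ PB k, w ℓ * F E ℓ / ℓ -
      ∑ k ∈ Ico (i+1) K, ∑ ℓ ∈ PB k, (if ℓ = r then (1:ℝ) else 0) ≤
      ∑ k ∈ Ico (i+1) K, ∑ ℓ ∈ PB k, (if ℓ < t ∨ F E ℓ = -1 then w ℓ else 0) / (ℓ:ℝ) := by
    rw [mul_sum, mul_sum, ← sum_sub_distrib, ← sum_sub_distrib]
    refine sum_le_sum fun k _ => ?_
    rw [mul_sum, mul_sum, ← sum_sub_distrib, ← sum_sub_distrib]
    refine sum_le_sum fun ℓ hℓ => ?_
    have hp := (mem_PB.mp hℓ).2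
    have h2b := two_le_bb k
    have hb := (mem_PB.mp hℓ).1.1
    have hℓ1 : (1:ℝ) ≤ ℓ := by exact_mod_cast hp.one_lt.le
    have hℓ0 : (0:ℝ) < ℓ := by linarith
    have hw := hw0 ℓ
    have hw' := hw2 ℓ
    have key : 1/2 * w ℓ - 1/2 * (w ℓ * F E ℓ) - (if ℓ = r then (1:ℝ) else 0) * ℓ ≤
        (if ℓ < t ∨ F E ℓ = -1 then w ℓ else 0) := by
      rcases Pool.Agent.H66.Gol.F_values E ℓ with h | h | h
      · rw [if_pos (Or.inr h), h]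
        split_ifs <;> nlinarith
      · have hr' := hr ℓ hp (by omega) h
        rw [if_pos hr', h]
        split_ifs <;> nlinarith
      · rw [h]
        split_ifs <;> nlinarith
    calc 1/2 * (w ℓ / ℓ) - 1/2 * (w ℓ * F E ℓ / ℓ) - (if ℓ = r then (1:ℝ) else 0)
        = (1/2 * w ℓ - 1/2 * (w ℓ * F E ℓ) - (if ℓ = r then (1:ℝ) else 0) * ℓ) / ℓ := by
          field_simp
      _ ≤ _ := div_le_div_of_nonneg_right key hℓ0.le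
  have q1 := hsum 0 i (by omega)
  have q2 := hsum (i+1) K (by omega)
  have q3 := hm (i+1) K
  have q4 := sum_eq_le_one (i+1) K r
  rw [e1]
  push_cast at q1 q2
  linarith

/-- the sum of the ratios -/
lemma geo : ∃ C : ℝ, 0 < C ∧ ∀ K : ℕ, ∑ i ∈ range K, (2:ℝ)^(i/4) / (√2)^i ≤ C := by
  set y : ℝ := √(√2) with hy
  have hy2 : y^2 = √2 := Real.sq_sqrt (Real.sqrt_nonneg _)
  have hy4 : y^4 = 2 := by
    have : y^4 = (y^2)^2 := by ring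
    rw [this, hy2, Real.sq_sqrt (by norm_num)]
  have hy0 : 0 < y := Real.sqrt_pos.mpr (Real.sqrt_pos.mpr (by norm_num))
  have hy1 : 1 < y := by
    by_contra hcon
    push Not at hcon
    have : y^4 ≤ 1 := pow_le_one₀ hy0.le hcon
    rw [hy4] at this; norm_num at this
  have hz1 : y⁻¹ < 1 := inv_lt_one_of_one_lt₀ hy1
  have hz0 : 0 ≤ y⁻¹ := by positivity
  refine ⟨(1 - y⁻¹)⁻¹, by rw [inv_pos]; linarith, fun K => ?_⟩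
  calc ∑ i ∈ range K, (2:ℝ)^(i/4) / (√2)^i ≤ ∑ i ∈ range K, y⁻¹^i := by
        refine sum_le_sum fun i _ => ?_
        rw [← hy2, ← hy4, ← pow_mul, ← pow_mul, inv_pow, div_le_iff₀ (by positivity)]
        have h1 : y^(4 * (i/4)) ≤ y^i := pow_le_pow_right₀ hy1.le (by omega)
        have h2 : (y^i)⁻¹ * y^(2 * i) = y^i := by
          rw [two_mul, pow_add]; field_simp
        rw [h2]; exact h1
    _ ≤ ∑' i : ℕ, y⁻¹^i :=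
        (summable_geometric_of_lt_one hz0 hz1).sum_le_tsum _ fun i _ => by positivity
    _ = (1 - y⁻¹)⁻¹ := tsum_geometric_of_lt_one hz0 hz1

/-- removing the exceptional primes -/
lemma remove (l M K : ℕ) (A B : ℕ → Prop) (hM : M ≠ 0) :
    ∑ k ∈ range K, ∑ ℓ ∈ PB k, wV l A B ℓ / ℓ - 3 * (4 * l + 1 + M.primeFactors.card) ≤
      ∑ k ∈ range K, ∑ ℓ ∈ PB k, (if ℓ ≤ 4 * l ∨ ℓ ∣ M then (0:ℝ) else wV l A B ℓ) / ℓ := by
  have hw3 : ∀ ℓ, wV l A B ℓ ≤ 3 := by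
    intro ℓ
    have h3 := (abs_le.mp (Pool.Agent.H66.Gol.abs_F_le (disc l) ℓ)).2
    unfold wV
    split_ifs <;> linarith
  have h1 : ∑ k ∈ range K, ∑ ℓ ∈ PB k, wV l A B ℓ / ℓ =
      ∑ k ∈ range K, ∑ ℓ ∈ PB k, (if ℓ ≤ 4 * l ∨ ℓ ∣ M then (0:ℝ) else wV l A B ℓ) / ℓ +
      ∑ k ∈ range K, ∑ ℓ ∈ PB k, (if ℓ ≤ 4 * l ∨ ℓ ∣ M then wV l A B ℓ / ℓ else 0) := by
    rw [← sum_add_distrib]
    refine sum_congr rfl fun k _ => ?_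
    rw [← sum_add_distrib]
    refine sum_congr rfl fun ℓ _ => ?_
    split_ifs <;> simp
  have h2 : ∑ k ∈ range K, ∑ ℓ ∈ PB k, (if ℓ ≤ 4 * l ∨ ℓ ∣ M then wV l A B ℓ / ℓ else 0) ≤
      3 * (4 * l + 1 + M.primeFactors.card) := by
    have h0 : ∀ ℓ : ℕ, 0 ≤ (if ℓ ≤ 4 * l ∨ ℓ ∣ M then wV l A B ℓ / ℓ else 0) := by
      intro ℓ
      have := wV_nonneg l A B ℓ
      split_ifs <;> positivity
    refine (block_sum_le K _ h0).trans ?_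
    rw [← sum_filter]
    have h3 : ((range (bb K + 1)).filter Nat.Prime).filter (fun ℓ => ℓ ≤ 4 * l ∨ ℓ ∣ M) ⊆
        range (4 * l + 1) ∪ M.primeFactors := by
      intro ℓ hℓ
      rw [mem_filter, mem_filter] at hℓ
      rw [mem_union, mem_range, Nat.mem_primeFactors]
      rcases hℓ.2 with h | h
      · left; omega
      · right; exact ⟨hℓ.1.2, h, hM⟩
    have h4 : ((((range (bb K + 1)).filter Nat.Prime).filter (fun ℓ => ℓ ≤ 4 * l ∨ ℓ ∣ M)).card : ℝ) ≤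
        4 * l + 1 + M.primeFactors.card := by
      have := (card_le_card h3).trans (card_union_le _ _)
      rw [card_range] at this
      exact_mod_cast this
    calc ∑ ℓ ∈ ((range (bb K + 1)).filter Nat.Prime).filter (fun ℓ => ℓ ≤ 4 * l ∨ ℓ ∣ M),
          wV l A B ℓ / ℓ
        ≤ ∑ ℓ ∈ ((range (bb K + 1)).filter Nat.Prime).filter (fun ℓ => ℓ ≤ 4 * l ∨ ℓ ∣ M),
          (3:ℝ) := by
          refine sum_le_sum fun ℓ hℓ => ?_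
          rw [mem_filter, mem_filter] at hℓ
          have hℓ1 : (1:ℝ) ≤ ℓ := by exact_mod_cast hℓ.1.2.one_lt.le
          have h5 := wV_nonneg l A B ℓ
          exact (div_le_self h5 hℓ1).trans (hw3 ℓ)
      _ ≤ 3 * (4 * l + 1 + M.primeFactors.card) := by
          rw [sum_const, nsmul_eq_mul]; linarith
  linarith

end Pool.Agent.H24.SH
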