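import Mathlib
import Pool.Agent.H24.SH.Part

/-!
The sieve bound for one pair of primes.
-/

namespace Pool.Agent.H24.SH

open Finset Classical Pool.Agent.H95.Gol Pool.Agent.H24.UM Pool.Agent.H70.SymDes

lemma F_mul_left (D E : ℤ) (n : ℕ) : F (D * E) n = F D n * F E n := by
  unfold F
  split_ifs
  · rw [jacobiSym.mul_left]; push_cast; ring
  · ring

lemma F_zero_imp (E : ℤ) (r ℓ : ℕ) (hr : r.Prime) (hE : E.natAbs = r) (hℓ : ℓ.Prime) (h2 : 2 < ℓ)
    (h : F E ℓ = 0) : ℓ = r := by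
  unfold F at h
  rw [if_pos (hℓ.odd_of_ne_two (by omega))] at h
  have h1 : jacobiSym E ℓ = 0 := by exact_mod_cast h
  rw [jacobiSym.eq_zero_iff] at h1
  have h3 := h1.2
  rw [Int.gcd_eq_natAbs_gcd_natAbs, Int.natAbs_natCast, hE] at h3
  by_contra hne
  exact h3 ((Nat.coprime_primes hr hℓ).mpr (fun h => hne h.symm))

lemma disc_natAbs (l : ℕ) (hl : 0 < l) : (disc l).natAbs + 1 = 4 * l := by
  unfold disc; omega

lemma disc_ne (l : ℕ) : disc l ≠ 0 := by unfold disc; omega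

lemma disc_nonsq (l : ℕ) (hl : 0 < l) : ¬ IsSquare (disc l) := by
  rintro ⟨r, hr⟩
  have h1 : 0 ≤ r * r := mul_self_nonneg r
  unfold disc at hr
  omega

lemma exp_split (K i j : ℕ) (a b c : ℝ) :
    Real.exp (-(K * Real.log 2 + 1/2 * (i + j) * Real.log 2 - 1/2 * (a + b) - c)) =
      Real.exp c * (1/2^K) * (Real.exp (a/2) / (√2)^i) * (Real.exp (b/2) / (√2)^j) := by
  have h2 : √2 = Real.exp (Real.log 2 / 2) := by
    rw [Real.exp_half, Real.exp_log (by norm_num)]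
  have hK : (1:ℝ)/2^K = Real.exp (-(K * Real.log 2)) := by
    rw [Real.exp_neg, Real.exp_nat_mul, Real.exp_log (by norm_num), one_div]
  have hi : ∀ i : ℕ, 1 / (√2)^i = Real.exp (-(1/2 * i * Real.log 2)) := by
    intro i
    rw [h2, ← Real.exp_nat_mul, one_div, ← Real.exp_neg]
    congr 1; ring
  rw [div_eq_mul_one_div (Real.exp (a/2)), div_eq_mul_one_div (Real.exp (b/2)), hK, hi i, hi j,
    ← Real.exp_add, ← Real.exp_add, ← Real.exp_add, ← Real.exp_add, ← Real.exp_add]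
  congr 1; ring

/-- the two conditions -/
def AA (p q : ℕ) : ℕ → Prop := fun ℓ => ℓ < p ∨ F q ℓ = -1
def BB (s : ℤ) (p q : ℕ) : ℕ → Prop := fun ℓ => ℓ < q ∨ F (s * p) ℓ = -1

/-- the integers counted for the pair `p, q` -/
noncomputable def Spq (l X K : ℕ) (s : ℤ) (p q : ℕ) : Finset ℕ :=
  (range (X+1)).filter (fun x => (p:ℤ) ∣ (x:ℤ)^2 - x + l ∧ (q:ℤ) ∣ (x:ℤ) - l ∧
    ∀ ℓ : ℕ, ℓ.Prime → 4 * l < ℓ → ℓ ≤ bb K → ¬ ℓ ∣ p * q → ¬ EV l (AA p q) (BB s p q) ℓ x)

theorem pair_bound (l : ℕ) (hl : 0 < l) : ∃ (A0 : ℕ) (C : ℝ) (α β : ℕ → ℕ → ℝ), 0 < C ∧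
    (∀ i p, 0 ≤ α i p) ∧ (∀ i q, 0 ≤ β i q) ∧
    (∀ i, ∑ p ∈ PB i, α i p / p ≤ C * 2^(i/4)) ∧ (∀ i, ∑ p ∈ PB i, β i p / p ≤ C * 2^(i/4)) ∧
    ∀ (X K i j p q : ℕ) (s : ℤ), (s = 1 ∨ s = -1) → i < K → j < K → p ∈ PB i → q ∈ PB j → p ≠ q →
      4 * l < p → 4 * l < q → (bb K)^A0 ≤ X →
      ((Spq l X K s p q).card : ℝ) ≤
        C * X * (1/2^K) * (α i p / p / (√2)^i) * (β j q / q / (√2)^j) := by
  obtain ⟨A0, C1, hC1, hcount⟩ := countV
  obtain ⟨C0, hC0, _, _, hlow⟩ := blk_bounds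
  obtain ⟨CD, hCD, hfix⟩ := fixed_blocks (disc l) (disc_nonsq l hl)
  obtain ⟨W1, μ1, hW1, hμ1, hw1, hs1⟩ := weight 1 one_ne_zero
  obtain ⟨W2, μ2, hW2, hμ2, hw2, hs2⟩ := weight (-1) (by norm_num)
  obtain ⟨W3, μ3, hW3, hμ3, hw3, hs3⟩ := weight (disc l) (disc_ne l)
  set c' : ℝ := 2 * (C0 + CD) + 2 + (2 * C0 + 2) + 3 * (4 * l + 3) with hc'
  set C : ℝ := W1 + W2 + W3 + 2 * C1 * Real.exp c' with hC
  have hCpos : 0 < C := by positivity
  refine ⟨A0 + 2, C, fun i p => Real.exp (μ1 i p) + Real.exp (μ2 i p),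
    fun i p => Real.exp (μ1 i p) + Real.exp (μ3 i p), hCpos, fun i p => by positivity,
    fun i p => by positivity, ?_, ?_, ?_⟩
  · intro i
    have e : ∑ p ∈ PB i, (Real.exp (μ1 i p) + Real.exp (μ2 i p)) / p =
        ∑ p ∈ PB i, Real.exp (μ1 i p) / p + ∑ p ∈ PB i, Real.exp (μ2 i p) / p := by
      rw [← sum_add_distrib]; exact sum_congr rfl fun p _ => add_div _ _ _
    rw [e]
    have h1 := hs1 i
    have h2 := hs2 i
    have h3 : (0:ℝ) < 2^(i/4) := by positivity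
    have h4 : (W1 + W2) * 2^(i/4) ≤ C * 2^(i/4) :=
      mul_le_mul_of_nonneg_right (by
        have : 0 ≤ 2 * C1 * Real.exp c' := by positivity
        linarith) h3.le
    linarith
  · intro i
    have e : ∑ p ∈ PB i, (Real.exp (μ1 i p) + Real.exp (μ3 i p)) / p =
        ∑ p ∈ PB i, Real.exp (μ1 i p) / p + ∑ p ∈ PB i, Real.exp (μ3 i p) / p := by
      rw [← sum_add_distrib]; exact sum_congr rfl fun p _ => add_div _ _ _
    rw [e]
    have h1 := hs1 i
    have h2 := hs3 i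
    have h3 : (0:ℝ) < 2^(i/4) := by positivity
    have h4 : (W1 + W3) * 2^(i/4) ≤ C * 2^(i/4) :=
      mul_le_mul_of_nonneg_right (by
        have : 0 ≤ 2 * C1 * Real.exp c' := by positivity
        linarith) h3.le
    linarith
  · intro X K i j p q s hs hi hj hp hq hpq hlp hlq hX
    have hpp := (mem_PB.mp hp).2
    have hqp := (mem_PB.mp hq).2
    have hp0 : (0:ℝ) < p := by exact_mod_cast hpp.pos
    have hq0 : (0:ℝ) < q := by exact_mod_cast hqp.pos
    have hpK : p ≤ bb K := (mem_PB.mp hp).1.2.trans (bb_mono hi)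
    have hqK : q ≤ bb K := (mem_PB.mp hq).1.2.trans (bb_mono hj)
    have hM0 : 0 < p * q := Nat.mul_pos hpp.pos hqp.pos
    have hX' : (bb K)^A0 * (p * q) ≤ X := by
      refine le_trans ?_ hX
      rw [pow_add, sq]
      exact Nat.mul_le_mul_left _ (Nat.mul_le_mul hpK hqK)
    have hco : Nat.Coprime p q := (Nat.coprime_primes hpp hqp).mpr hpq
    -- the exponent
    set SG : ℝ := ∑ k ∈ range K, ∑ ℓ ∈ PB k,
      (if ℓ ≤ 4 * l ∨ ℓ ∣ p * q then (0:ℝ) else wV l (AA p q) (BB s p q) ℓ) / ℓ with hSG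
    have hpf : ((p * q).primeFactors.card : ℝ) ≤ 2 := by
      rw [hco.primeFactors_mul, hpp.primeFactors, hqp.primeFactors]
      have := card_union_le ({p} : Finset ℕ) {q}
      rw [card_singleton, card_singleton] at this
      exact_mod_cast this
    have hrem := remove l (p * q) K (AA p q) (BB s p q) hM0.ne'
    have hsplit : ∑ k ∈ range K, ∑ ℓ ∈ PB k, wV l (AA p q) (BB s p q) ℓ / ℓ =
        ∑ k ∈ range K, ∑ ℓ ∈ PB k, (if ℓ < p ∨ F q ℓ = -1 then 1 + F (disc l) ℓ else 0) / (ℓ:ℝ) +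
        ∑ k ∈ range K, ∑ ℓ ∈ PB k, (if ℓ < q ∨ F (s * p) ℓ = -1 then (1:ℝ) else 0) / (ℓ:ℝ) := by
      rw [← sum_add_distrib]
      refine sum_congr rfl fun k _ => ?_
      rw [← sum_add_distrib]
      refine sum_congr rfl fun ℓ _ => ?_
      unfold wV AA BB
      rw [add_div]
      congr 1 <;> congr 1 <;> split_ifs <;> rfl
    have hDabs : ∀ ℓ, |F (disc l) ℓ| ≤ 1 := Pool.Agent.H66.Gol.abs_F_le (disc l)
    have hA := part (fun ℓ => 1 + F (disc l) ℓ) (fun ℓ => by have := (abs_le.mp (hDabs ℓ)).1; linarith)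
      (fun ℓ => by have := (abs_le.mp (hDabs ℓ)).2; linarith) (C0 + CD) (by positivity)
      (fun a b hab => by
        have h1 := hlow a b hab
        have h2 := (abs_le.mp (hfix a b hab)).1
        have e : ∑ k ∈ Ico a b, ∑ ℓ ∈ PB k, (1 + F (disc l) ℓ) / (ℓ:ℝ) =
            ∑ k ∈ Ico a b, ∑ ℓ ∈ PB k, (1:ℝ) / ℓ + ∑ k ∈ Ico a b, Dk (disc l) k := by
          rw [← sum_add_distrib]
          refine sum_congr rfl fun k _ => ?_
          unfold Dk
          rw [← sum_add_distrib]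
          exact sum_congr rfl fun ℓ _ => add_div _ _ _
        rw [e]; linarith)
      (q:ℤ) q (fun ℓ hℓ h2 h => F_zero_imp q q ℓ hqp (Int.natAbs_natCast q) hℓ h2 h)
      (μ1 j q + μ3 j q) (fun a b => by
        have h1 := hw1 j q hq (by simpa using hqp.one_lt) a b
        have h2 := hw3 j q hq (by have := disc_natAbs l hl; omega) a b
        rw [one_mul] at h1
        have e : ∑ k ∈ Ico a b, ∑ ℓ ∈ PB k, (1 + F (disc l) ℓ) * F q ℓ / (ℓ:ℝ) =
            ∑ k ∈ Ico a b, Dk q k + ∑ k ∈ Ico a b, Dk (disc l * q) k := by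
          rw [← sum_add_distrib]
          refine sum_congr rfl fun k _ => ?_
          unfold Dk
          rw [← sum_add_distrib]
          refine sum_congr rfl fun ℓ _ => ?_
          rw [F_mul_left]; ring
        rw [e]; linarith)
      i K p hi hp
    have hB0 : ∃ mB : ℝ, (∀ a b : ℕ, ∑ k ∈ Ico a b, Dk (s * p) k ≤ mB) ∧
        Real.exp (mB / 2) ≤ Real.exp (μ1 i p) + Real.exp (μ2 i p) := by
      have hexp : ∀ x : ℝ, 0 ≤ x → Real.exp (x/2) ≤ Real.exp x := fun x hx =>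
        Real.exp_le_exp.mpr (by linarith)
      rcases hs with rfl | rfl
      · refine ⟨μ1 i p, hw1 i p hp (by simpa using hpp.one_lt), ?_⟩
        have := hexp _ (hμ1 i p)
        have := Real.exp_pos (μ2 i p)
        linarith
      · refine ⟨μ2 i p, hw2 i p hp (by simpa using hpp.one_lt), ?_⟩
        have := hexp _ (hμ2 i p)
        have := Real.exp_pos (μ1 i p)
        linarith
    obtain ⟨mB, hmB, hmBe⟩ := hB0
    have hB := part (fun _ => 1) (fun _ => by norm_num) (fun _ => by norm_num) C0 hC0.le hlow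
      (s * p) p (fun ℓ hℓ h2 h => F_zero_imp (s * p) p ℓ hpp (by
        rcases hs with rfl | rfl <;> simp) hℓ h2 h) mB (fun a b => by
        have e : ∑ k ∈ Ico a b, ∑ ℓ ∈ PB k, 1 * F (s * p) ℓ / (ℓ:ℝ) = ∑ k ∈ Ico a b, Dk (s * p) k := by
          refine sum_congr rfl fun k _ => ?_
          unfold Dk
          exact sum_congr rfl fun ℓ _ => by rw [one_mul]
        rw [e]; exact hmB a b) j K q hj hq
    have hSGlow : K * Real.log 2 + 1/2 * (i + j) * Real.log 2 - 1/2 * (mB + (μ1 j q + μ3 j q)) - c' ≤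
        SG := by
      rw [hsplit] at hrem
      have : 3 * (4 * (l:ℝ) + 1 + (p * q).primeFactors.card) ≤ 3 * (4 * l + 3) := by linarith
      rw [hc']
      linarith
    have hexpSG : Real.exp (-SG) ≤ Real.exp c' * (1/2^K) *
        ((Real.exp (μ1 i p) + Real.exp (μ2 i p)) / (√2)^i) *
        ((Real.exp (μ1 j q) + Real.exp (μ3 j q)) / (√2)^j) := by
      calc Real.exp (-SG) ≤ Real.exp (-(K * Real.log 2 + 1/2 * (i + j) * Real.log 2 -
            1/2 * (mB + (μ1 j q + μ3 j q)) - c')) := Real.exp_le_exp.mpr (by linarith)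
        _ = Real.exp c' * (1/2^K) * (Real.exp (mB/2) / (√2)^i) *
            (Real.exp ((μ1 j q + μ3 j q)/2) / (√2)^j) := exp_split _ _ _ _ _ _
        _ ≤ _ := by
          have h1 : Real.exp ((μ1 j q + μ3 j q)/2) ≤ Real.exp (μ1 j q) + Real.exp (μ3 j q) := by
            have ha := Real.exp_pos (μ1 j q)
            have hb := Real.exp_pos (μ3 j q)
            rcases le_total (μ1 j q) (μ3 j q) with h | h
            · have : Real.exp ((μ1 j q + μ3 j q)/2) ≤ Real.exp (μ3 j q) :=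
                Real.exp_le_exp.mpr (by linarith)
              linarith
            · have : Real.exp ((μ1 j q + μ3 j q)/2) ≤ Real.exp (μ1 j q) :=
                Real.exp_le_exp.mpr (by linarith)
              linarith
          gcongr
    -- the residue classes
    set R := (range p).filter (fun x : ℕ => (p:ℤ) ∣ (x:ℤ)^2 - x + l) with hR
    have hRcard : R.card ≤ 2 := rho_le l p hpp (by omega)
    set cls : ℕ → ℕ := fun r => (Nat.chineseRemainder hco r l : ℕ) % (p * q) with hcls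
    have hsub : Spq l X K s p q ⊆ R.biUnion (fun r => (range (X+1)).filter (fun x =>
        x % (p * q) = cls r ∧ ∀ ℓ : ℕ, ℓ.Prime → 4 * l < ℓ → ℓ ≤ bb K → ¬ ℓ ∣ p * q →
          ¬ EV l (AA p q) (BB s p q) ℓ x)) := by
      intro x hx
      unfold Spq at hx
      rw [mem_filter] at hx
      obtain ⟨hx1, hx2, hx3, hx4⟩ := hx
      rw [mem_biUnion]
      refine ⟨x % p, ?_, ?_⟩
      · rw [hR, mem_filter, mem_range]
        refine ⟨Nat.mod_lt _ hpp.pos, ?_⟩
        rw [← V_per l p x (x % p)]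
        · exact hx2
        · refine ⟨((x / p : ℕ) : ℤ), ?_⟩
          have := Nat.mod_add_div x p
          have h : (x:ℤ) = ((x % p : ℕ):ℤ) + (p:ℤ) * ((x / p : ℕ) : ℤ) := by exact_mod_cast this.symm
          linarith
      · rw [mem_filter]
        refine ⟨hx1, ?_, hx4⟩
        rw [hcls]
        simp only
        have hcr := (Nat.chineseRemainder hco (x % p) l).2
        have h1 : x ≡ (Nat.chineseRemainder hco (x % p) l : ℕ) [MOD p] :=
          (Nat.mod_modEq x p).symm.trans hcr.1.symm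
        have h2 : x ≡ l [MOD q] := by
          apply Nat.ModEq.symm
          rw [Nat.modEq_iff_dvd]
          exact hx3
        have h3 : x ≡ (Nat.chineseRemainder hco (x % p) l : ℕ) [MOD q] := h2.trans hcr.2.symm
        exact (Nat.modEq_and_modEq_iff_modEq_mul hco).mp ⟨h1, h3⟩
    have hcard : ((Spq l X K s p q).card : ℝ) ≤ 2 * (C1 * (X / (p * q : ℕ)) * Real.exp (-SG)) := by
      have h1 : ((Spq l X K s p q).card : ℝ) ≤ ∑ r ∈ R, (((range (X+1)).filter (fun x =>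
        x % (p * q) = cls r ∧ ∀ ℓ : ℕ, ℓ.Prime → 4 * l < ℓ → ℓ ≤ bb K → ¬ ℓ ∣ p * q →
          ¬ EV l (AA p q) (BB s p q) ℓ x)).card : ℝ) := by
        have := (card_le_card hsub).trans card_biUnion_le
        exact_mod_cast this
      refine h1.trans ?_
      have h2 : ∀ r ∈ R, (((range (X+1)).filter (fun x =>
        x % (p * q) = cls r ∧ ∀ ℓ : ℕ, ℓ.Prime → 4 * l < ℓ → ℓ ≤ bb K → ¬ ℓ ∣ p * q →
          ¬ EV l (AA p q) (BB s p q) ℓ x)).card : ℝ) ≤ C1 * (X / (p * q : ℕ)) * Real.exp (-SG) :=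
        fun r _ => hcount l (p * q) (cls r) X K (AA p q) (BB s p q) hl hM0 hX'
      refine (sum_le_card_nsmul _ _ _ h2).trans ?_
      rw [nsmul_eq_mul]
      refine mul_le_mul_of_nonneg_right (by exact_mod_cast hRcard) (by positivity)
    refine hcard.trans ?_
    have h3 : 2 * C1 * Real.exp c' ≤ C := by rw [hC]; linarith
    have hY : 0 ≤ (X:ℝ) * (1/2^K) * ((Real.exp (μ1 i p) + Real.exp (μ2 i p)) / p / (√2)^i) *
        ((Real.exp (μ1 j q) + Real.exp (μ3 j q)) / q / (√2)^j) := by positivity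
    calc 2 * (C1 * (X / (p * q : ℕ)) * Real.exp (-SG))
        ≤ 2 * (C1 * (X / (p * q : ℕ)) * (Real.exp c' * (1/2^K) *
        ((Real.exp (μ1 i p) + Real.exp (μ2 i p)) / (√2)^i) *
        ((Real.exp (μ1 j q) + Real.exp (μ3 j q)) / (√2)^j))) := by gcongr
      _ = (2 * C1 * Real.exp c') * ((X:ℝ) * (1/2^K) *
        ((Real.exp (μ1 i p) + Real.exp (μ2 i p)) / p / (√2)^i) *
        ((Real.exp (μ1 j q) + Real.exp (μ3 j q)) / q / (√2)^j)) := by
          push_cast; field_simp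
      _ ≤ C * ((X:ℝ) * (1/2^K) * ((Real.exp (μ1 i p) + Real.exp (μ2 i p)) / p / (√2)^i) *
        ((Real.exp (μ1 j q) + Real.exp (μ3 j q)) / q / (√2)^j)) :=
          mul_le_mul_of_nonneg_right h3 hY
      _ = _ := by ring

end Pool.Agent.H24.SH
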