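import Mathlib
import Pool.Agent.H24.SH.Pair
import Pool.Agent.H24.AN.Uniform
import Pool.Agent.H96.Sing.Main

/-!
The number of `x ≤ X` satisfying the necessary condition is `O(X / log X)`.
-/

namespace Pool.Agent.H24.SH

open Finset Classical Pool.Agent.H95.Gol Pool.Agent.H24.UM Pool.Agent.H70.SymDes

/-- the necessary condition for a block size `x` -/
def Cond (l x : ℕ) : Prop :=
  l < x ∧ ∃ v : ℕ, l * v = x * (x - 1) + l ∧ (Even v → IsSquare (x - l)) ∧
    (Odd v → ∀ q : ℕ, q.Prime → q ≠ 2 → q ∣ v → ∀ p : ℕ, p.Prime → ¬ IsSquare (p : ZMod q) →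
      p ≠ q → ¬ (p ∣ x - l ∧ ¬ p^2 ∣ x - l))

/-- the sign making `sg p * p ≡ 1 mod 4` -/
noncomputable def sg (p : ℕ) : ℤ :=
  if h : p.Prime ∧ p ≠ 2 then (Pool.Agent.H24.AN.recip p h.1 h.2).choose else 1

lemma sg_one (p : ℕ) : sg p = 1 ∨ sg p = -1 := by
  unfold sg
  split_ifs with h
  · exact (Pool.Agent.H24.AN.recip p h.1 h.2).choose_spec.1
  · left; rfl

lemma sg_recip (p : ℕ) (hp : p.Prime) (h2 : p ≠ 2) (ℓ : ℕ) (hℓ : ℓ.Prime)
    (h : ¬ IsSquare ((sg p : ZMod ℓ) * (p : ZMod ℓ))) : ℓ ≠ p ∧ ¬ IsSquare (ℓ : ZMod p) := by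
  have hh : p.Prime ∧ p ≠ 2 := ⟨hp, h2⟩
  unfold sg at h
  rw [dif_pos hh] at h
  exact (Pool.Agent.H24.AN.recip p hp h2).choose_spec.2 ℓ hℓ h

lemma F_neg_one (E : ℤ) (ℓ : ℕ) (hℓ : ℓ.Prime) (h2 : ℓ ≠ 2) (h : F E ℓ = -1) :
    ¬ IsSquare (E : ZMod ℓ) := by
  rw [F_eq] at h
  unfold jr at h
  have h1 : jc E ℓ = -1 := by exact_mod_cast h
  exact (jc_prime E ℓ hℓ h2).mp h1

lemma dvd_cast_sub (l x m : ℕ) (h : l ≤ x) : ((m:ℕ):ℤ) ∣ (x:ℤ) - l ↔ m ∣ x - l := by
  rw [← Nat.cast_sub h, Int.natCast_dvd_natCast]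

lemma V_dvd (l x v ℓ : ℕ) (hx : 0 < x) (hv : l * v = x * (x - 1) + l) (hℓ : ℓ.Prime) (hl : 0 < l)
    (h4 : 4 * l < ℓ) : (ℓ:ℤ) ∣ (x:ℤ)^2 - x + l ↔ ℓ ∣ v := by
  have h1 : (x:ℤ)^2 - x + l = ((l * v : ℕ) : ℤ) := by
    rw [hv]; push_cast [Nat.cast_sub (show 1 ≤ x from hx)]; ring
  rw [h1, Int.natCast_dvd_natCast, hℓ.dvd_mul]
  constructor
  · rintro (h | h)
    · have := Nat.le_of_dvd hl h; omega
    · exact h
  · exact Or.inr

/-- the union over all pairs -/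
noncomputable def UU (l X K : ℕ) : Finset ℕ :=
  (range K).biUnion fun i => (PB i).biUnion fun p => (range K).biUnion fun j =>
    (PB j).biUnion fun q =>
      if p ≠ q ∧ 4 * l < p ∧ 4 * l < q then Spq l X K (sg p) p q else ∅

lemma cover (l : ℕ) (hl : 0 < l) (X K x : ℕ) (hx : x ≤ X) (hc : Cond l x)
    (hsq : ¬ IsSquare (x - l)) :
    (∀ ℓ : ℕ, ℓ.Prime → 4 * l < ℓ → ℓ ≤ bb K → ¬ ℓ ∣ 1 →
      ¬ EV l (fun _ => False) (fun _ => True) ℓ x) ∨
    (∀ ℓ : ℕ, ℓ.Prime → 4 * l < ℓ → ℓ ≤ bb K → ¬ ℓ ∣ 1 →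
      ¬ EV l (fun _ => True) (fun _ => False) ℓ x) ∨ x ∈ UU l X K := by
  obtain ⟨hlx, v, hv, hve, hvo⟩ := hc
  have hodd : Odd v := by
    rw [← Nat.not_even_iff_odd]
    exact fun h => hsq (hve h)
  have hcond := hvo hodd
  by_cases hB : ∀ ℓ : ℕ, ℓ.Prime → 4 * l < ℓ → ℓ ≤ bb K → ¬ ℓ ∣ 1 →
      ¬ EV l (fun _ => False) (fun _ => True) ℓ x
  · exact Or.inl hB
  by_cases hC : ∀ ℓ : ℕ, ℓ.Prime → 4 * l < ℓ → ℓ ≤ bb K → ¬ ℓ ∣ 1 →
      ¬ EV l (fun _ => True) (fun _ => False) ℓ x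
  · exact Or.inr (Or.inl hC)
  right; right
  have hP : ∃ p : ℕ, p.Prime ∧ 4 * l < p ∧ p ≤ bb K ∧ (p:ℤ) ∣ (x:ℤ)^2 - x + l := by
    push Not at hC
    obtain ⟨p, h1, h2, h3, _, h5⟩ := hC
    refine ⟨p, h1, h2, h3, ?_⟩
    unfold EV at h5
    rcases h5 with h | h
    · exact h.2
    · exact absurd h.1 not_false
  have hQ : ∃ q : ℕ, q.Prime ∧ 4 * l < q ∧ q ≤ bb K ∧ (q:ℤ) ∣ (x:ℤ) - l ∧ ¬ (q:ℤ)^2 ∣ (x:ℤ) - l := by
    push Not at hB
    obtain ⟨p, h1, h2, h3, _, h5⟩ := hB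
    refine ⟨p, h1, h2, h3, ?_⟩
    unfold EV at h5
    rcases h5 with h | h
    · exact absurd h.1 not_false
    · exact h.2
  obtain ⟨hp1, hp2, hp3, hp4⟩ := Nat.find_spec hP
  have hpmin := fun m (hm : m < Nat.find hP) => Nat.find_min hP hm
  obtain ⟨hq1, hq2, hq3, hq4, hq5⟩ := Nat.find_spec hQ
  have hqmin := fun m (hm : m < Nat.find hQ) => Nat.find_min hQ hm
  set p := Nat.find hP with hp
  set q := Nat.find hQ with hq
  have hpv : p ∣ v := (V_dvd l x v p (by omega) hv hp1 hl hp2).mp hp4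
  have hqx : q ∣ x - l := (dvd_cast_sub l x q hlx.le).mp hq4
  have hqx2 : ¬ q^2 ∣ x - l := by
    rw [← dvd_cast_sub l x (q^2) hlx.le]; push_cast; exact hq5
  have hpq : p ≠ q := by
    intro h
    have h7 : (p:ℤ) ∣ (l:ℤ) * l := by
      have : (l:ℤ) * l = ((x:ℤ)^2 - x + l) - ((x:ℤ) - l) * (x + l - 1) := by ring
      rw [this]
      exact dvd_sub hp4 (dvd_mul_of_dvd_left (h ▸ hq4) _)
    have h8 : p ∣ l * l := by exact_mod_cast h7
    rcases hp1.dvd_mul.mp h8 with h9 | h9 <;>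
    · have := Nat.le_of_dvd hl h9
      omega
  have hpb : ∃ i < K, p ∈ PB i := exists_block hp1 (by omega) hp3
  have hqb : ∃ j < K, q ∈ PB j := exists_block hq1 (by omega) hq3
  obtain ⟨i, hi, hpi⟩ := hpb
  obtain ⟨j, hj, hqj⟩ := hqb
  unfold UU
  rw [mem_biUnion]
  refine ⟨i, mem_range.mpr hi, ?_⟩
  rw [mem_biUnion]
  refine ⟨p, hpi, ?_⟩
  rw [mem_biUnion]
  refine ⟨j, mem_range.mpr hj, ?_⟩
  rw [mem_biUnion]
  refine ⟨q, hqj, ?_⟩
  rw [if_pos ⟨hpq, hp2, hq2⟩]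
  unfold Spq
  rw [mem_filter, mem_range]
  refine ⟨by omega, hp4, hq4, fun ℓ hℓ h4 hK hnd hEV => ?_⟩
  have hℓp : ℓ ≠ p := fun h => hnd (h ▸ dvd_mul_right p q)
  have hℓq : ℓ ≠ q := fun h => hnd (h ▸ dvd_mul_left q p)
  unfold EV at hEV
  rcases hEV with ⟨hA, hV⟩ | ⟨hB', hn1, hn2⟩
  · unfold AA at hA
    rcases hA with hA | hA
    · exact hpmin ℓ hA ⟨hℓ, h4, hK, hV⟩
    · have h5 := F_neg_one q ℓ hℓ (by omega) hA
      have h6 : ℓ ∣ v := (V_dvd l x v ℓ (by omega) hv hℓ hl h4).mp hV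
      refine hcond ℓ hℓ (by omega) h6 q hq1 ?_ (Ne.symm hℓq) ⟨hqx, hqx2⟩
      intro h7; exact h5 (by push_cast; exact h7)
  · unfold BB at hB'
    rcases hB' with hB' | hB'
    · exact hqmin ℓ hB' ⟨hℓ, h4, hK, hn1, hn2⟩
    · have h5 := F_neg_one (sg p * p) ℓ hℓ (by omega) hB'
      obtain ⟨h6, h7⟩ := sg_recip p hp1 (by omega) ℓ hℓ (by
        intro h8; exact h5 (by push_cast; exact h8))
      refine hcond p hp1 (by omega) hpv ℓ hℓ h7 h6 ⟨(dvd_cast_sub l x ℓ hlx.le).mp hn1, ?_⟩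
      rw [← dvd_cast_sub l x (ℓ^2) hlx.le]; push_cast; exact hn2

/-- the scale -/
lemma exists_K (A X : ℕ) (hX : 2^A ≤ X) : ∃ K : ℕ, (bb K)^A ≤ X ∧
    Real.log X * (1/2^K) ≤ 2 * A + 2 := by
  have hX1 : 1 ≤ X := le_trans Nat.one_le_two_pow hX
  by_cases hA : A = 0
  · subst hA
    obtain ⟨K, hK⟩ := pow_unbounded_of_one_lt (Real.log X) (show (1:ℝ) < 2 by norm_num)
    refine ⟨K, by simpa using hX1, ?_⟩
    rw [mul_one_div, div_le_iff₀ (by positivity)]
    push_cast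
    linarith [show (0:ℝ) < 2^K by positivity]
  have hex : ∃ K, X < (bb (K+1))^A := by
    refine ⟨X, ?_⟩
    have h1 : X < bb (X+1) := by
      unfold bb
      have := Nat.lt_two_pow_self (n := X+1)
      have h2 := Nat.lt_two_pow_self (n := 2^(X+1))
      omega
    exact h1.trans_le (Nat.le_self_pow hA _)
  refine ⟨Nat.find hex, ?_, ?_⟩
  · rcases Nat.eq_zero_or_pos (Nat.find hex) with h | h
    · rw [h]; exact hX
    · have := Nat.find_min hex (show Nat.find hex - 1 < Nat.find hex by omega)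
      rw [Nat.sub_add_cancel h] at this
      omega
  · have h1 := Nat.find_spec hex
    set K := Nat.find hex with hK
    have h2 : Real.log X ≤ A * (2^(K+1) * Real.log 2) := by
      rw [← log_bb, ← Real.log_pow]
      refine Real.log_le_log (by exact_mod_cast hX1) ?_
      exact_mod_cast h1.le
    have hl2 := Real.log_two_lt_d9
    have hl0 : 0 ≤ Real.log 2 := Real.log_nonneg (by norm_num)
    rw [mul_one_div, div_le_iff₀ (by positivity)]
    rw [pow_succ] at h2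
    have hA0 : (0:ℝ) ≤ A := Nat.cast_nonneg _
    have hK0 : (0:ℝ) < 2^K := by positivity
    have h3 : (A:ℝ) * (2^K * 2 * Real.log 2) ≤ A * (2^K * 2 * 1) :=
      mul_le_mul_of_nonneg_left (mul_le_mul_of_nonneg_left (by linarith) (by positivity)) hA0
    nlinarith

theorem cond_count (l : ℕ) (hl : 0 < l) : ∃ C : ℝ, 0 < C ∧ ∀ X : ℕ, 2 ≤ X →
    (((range (X+1)).filter (Cond l)).card : ℝ) ≤ C * X / Real.log X := by
  obtain ⟨A1, C1, hC1, hcount⟩ := countV
  obtain ⟨C0, hC0, _, _, hlow⟩ := blk_bounds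
  obtain ⟨CD, hCD, hfix⟩ := fixed_blocks (disc l) (disc_nonsq l hl)
  obtain ⟨A2, C2, α, β, hC2, hα, hβ, hsα, hsβ, hpair⟩ := pair_bound l hl
  obtain ⟨Cg, hCg, hgeo⟩ := geo
  set A := max A1 A2 with hA
  set c' : ℝ := C0 + CD + 3 * (4 * l + 1) with hc'
  -- the constant
  set B : ℝ := 2 * (C1 * Real.exp c') + C2 * (C2 * Cg) * (C2 * Cg) with hB
  have hBpos : 0 < B := by positivity
  refine ⟨4 + B * (2 * A + 2) + 2 * 2^A + 2, by positivity, fun X hX => ?_⟩
  have hX0 : (2:ℝ) ≤ X := by exact_mod_cast hX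
  have hlogX : 0 < Real.log X := Real.log_pos (by linarith)
  have hlogle : Real.log X ≤ X := by
    have := Real.log_le_sub_one_of_pos (show (0:ℝ) < X by linarith)
    linarith
  rw [le_div_iff₀ hlogX]
  have htriv : (((range (X+1)).filter (Cond l)).card : ℝ) ≤ X + 1 := by
    have := card_filter_le (range (X+1)) (Cond l)
    rw [card_range] at this
    exact_mod_cast this
  rcases Nat.lt_or_ge X (2^A) with hsmall | hbig
  · have h1 : (X:ℝ) ≤ 2^A := by exact_mod_cast hsmall.le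
    have h2 : ((X:ℝ) + 1) * Real.log X ≤ (2 * X) * 2^A :=
      mul_le_mul (by linarith) (hlogle.trans h1) hlogX.le (by positivity)
    have h3 : 0 ≤ (4 + B * (2 * (A:ℝ) + 2) + 2) * X := by positivity
    calc (((range (X+1)).filter (Cond l)).card : ℝ) * Real.log X ≤ (X + 1) * Real.log X :=
          mul_le_mul_of_nonneg_right htriv hlogX.le
      _ ≤ (2 * X) * 2^A := h2
      _ ≤ _ := by nlinarith
  obtain ⟨K, hK1, hK2⟩ := exists_K A X hbig
  have hbb1 : 1 ≤ bb K := bb_pos K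
  have hKA1 : (bb K)^A1 * 1 ≤ X := by
    rw [mul_one]
    exact (Nat.pow_le_pow_right hbb1 (le_max_left _ _)).trans hK1
  have hKA2 : (bb K)^A2 ≤ X := (Nat.pow_le_pow_right hbb1 (le_max_right _ _)).trans hK1
  set S0 := (range (X+1)).filter (fun x => l < x ∧ IsSquare (x - l)) with hS0
  set S1 := (range (X+1)).filter (fun x => x % 1 = 0 ∧
      ∀ ℓ : ℕ, ℓ.Prime → 4 * l < ℓ → ℓ ≤ bb K → ¬ ℓ ∣ 1 →
        ¬ EV l (fun _ => False) (fun _ => True) ℓ x) with hS1
  set S2 := (range (X+1)).filter (fun x => x % 1 = 0 ∧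
      ∀ ℓ : ℕ, ℓ.Prime → 4 * l < ℓ → ℓ ≤ bb K → ¬ ℓ ∣ 1 →
        ¬ EV l (fun _ => True) (fun _ => False) ℓ x) with hS2
  have hsub : (range (X+1)).filter (Cond l) ⊆ S0 ∪ (S1 ∪ (S2 ∪ UU l X K)) := by
    intro x hx
    rw [mem_filter, mem_range] at hx
    rw [mem_union, mem_union, mem_union]
    by_cases hsq : IsSquare (x - l)
    · left
      rw [hS0, mem_filter, mem_range]
      exact ⟨hx.1, hx.2.1, hsq⟩
    · right
      rcases cover l hl X K x (by omega) hx.2 hsq with h | h | h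
      · left
        rw [hS1, mem_filter, mem_range]
        exact ⟨hx.1, Nat.mod_one x, h⟩
      · right; left
        rw [hS2, mem_filter, mem_range]
        exact ⟨hx.1, Nat.mod_one x, h⟩
      · right; right; exact h
  have hc0 : (S0.card : ℝ) ≤ Nat.sqrt X + 1 := by
    exact_mod_cast Pool.Agent.H12.card_squares l X
  have hexpK : Real.exp (-(K * Real.log 2 - c')) = Real.exp c' * (1/2^K) := by
    have : (1:ℝ)/2^K = Real.exp (-(K * Real.log 2)) := by
      rw [Real.exp_neg, Real.exp_nat_mul, Real.exp_log (by norm_num), one_div]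
    rw [this, ← Real.exp_add]; congr 1; ring
  have hrange : ∀ f : ℕ → ℝ, ∑ k ∈ range K, f k = ∑ k ∈ Ico 0 K, f k := fun f => by
    rw [range_eq_Ico]
  have hl1 := hlow 0 K (by omega)
  rw [Nat.cast_zero, sub_zero] at hl1
  have hc1 : (S1.card : ℝ) ≤ C1 * X * (Real.exp c' * (1/2^K)) := by
    refine (hcount l 1 0 X K (fun _ => False) (fun _ => True) hl one_pos hKA1).trans ?_
    rw [Nat.cast_one, div_one, ← hexpK]
    refine mul_le_mul_of_nonneg_left (Real.exp_le_exp.mpr ?_) (by positivity)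
    have hrem := remove l 1 K (fun _ => False) (fun _ => True) one_ne_zero
    have e : ∑ k ∈ range K, ∑ ℓ ∈ PB k, wV l (fun _ => False) (fun _ => True) ℓ / ℓ =
        ∑ k ∈ Ico 0 K, ∑ ℓ ∈ PB k, (1:ℝ)/ℓ := by
      rw [hrange]
      refine sum_congr rfl fun k _ => sum_congr rfl fun ℓ _ => ?_
      unfold wV; simp
    rw [e, Nat.primeFactors_one, card_empty, Nat.cast_zero, add_zero] at hrem
    linarith
  have hc2 : (S2.card : ℝ) ≤ C1 * X * (Real.exp c' * (1/2^K)) := by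
    refine (hcount l 1 0 X K (fun _ => True) (fun _ => False) hl one_pos hKA1).trans ?_
    rw [Nat.cast_one, div_one, ← hexpK]
    refine mul_le_mul_of_nonneg_left (Real.exp_le_exp.mpr ?_) (by positivity)
    have hrem := remove l 1 K (fun _ => True) (fun _ => False) one_ne_zero
    have e : ∑ k ∈ range K, ∑ ℓ ∈ PB k, wV l (fun _ => True) (fun _ => False) ℓ / ℓ =
        ∑ k ∈ Ico 0 K, ∑ ℓ ∈ PB k, (1:ℝ)/ℓ + ∑ k ∈ Ico 0 K, Dk (disc l) k := by
      rw [hrange, ← sum_add_distrib]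
      refine sum_congr rfl fun k _ => ?_
      unfold Dk
      rw [← sum_add_distrib]
      refine sum_congr rfl fun ℓ _ => ?_
      unfold wV; simp [add_div]
    rw [e, Nat.primeFactors_one, card_empty, Nat.cast_zero, add_zero] at hrem
    have := (abs_le.mp (hfix 0 K (by omega))).1
    linarith
  -- the pairs
  have hcU : ((UU l X K).card : ℝ) ≤ C2 * X * (1/2^K) * (C2 * Cg) * (C2 * Cg) := by
    have h1 : ((UU l X K).card : ℝ) ≤ ∑ i ∈ range K, ∑ p ∈ PB i, ∑ j ∈ range K, ∑ q ∈ PB j,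
        (((if p ≠ q ∧ 4 * l < p ∧ 4 * l < q then Spq l X K (sg p) p q else ∅) : Finset ℕ).card : ℝ) := by
      have : (UU l X K).card ≤ ∑ i ∈ range K, ∑ p ∈ PB i, ∑ j ∈ range K, ∑ q ∈ PB j,
        ((if p ≠ q ∧ 4 * l < p ∧ 4 * l < q then Spq l X K (sg p) p q else ∅) : Finset ℕ).card := by
        unfold UU
        refine card_biUnion_le.trans (sum_le_sum fun i _ => ?_)
        refine card_biUnion_le.trans (sum_le_sum fun p _ => ?_)
        refine card_biUnion_le.trans (sum_le_sum fun j _ => ?_)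
        exact card_biUnion_le
      exact_mod_cast this
    have h2 : ∑ i ∈ range K, ∑ p ∈ PB i, ∑ j ∈ range K, ∑ q ∈ PB j,
        (((if p ≠ q ∧ 4 * l < p ∧ 4 * l < q then Spq l X K (sg p) p q else ∅) : Finset ℕ).card : ℝ) ≤
        ∑ i ∈ range K, ∑ p ∈ PB i, ∑ j ∈ range K, ∑ q ∈ PB j,
          C2 * X * (1/2^K) * (α i p / p / (√2)^i) * (β j q / q / (√2)^j) := by
      refine sum_le_sum fun i hi => sum_le_sum fun p hp => sum_le_sum fun j hj =>
        sum_le_sum fun q hq => ?_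
      split_ifs with h
      · exact hpair X K i j p q (sg p) (sg_one p) (mem_range.mp hi) (mem_range.mp hj) hp hq h.1
          h.2.1 h.2.2 hKA2
      · rw [card_empty, Nat.cast_zero]
        have a1 := hα i p
        have a2 := hβ j q
        positivity
    have e : ∑ i ∈ range K, ∑ p ∈ PB i, ∑ j ∈ range K, ∑ q ∈ PB j,
          C2 * X * (1/2^K) * (α i p / p / (√2)^i) * (β j q / q / (√2)^j) =
        C2 * X * (1/2^K) * (∑ i ∈ range K, (∑ p ∈ PB i, α i p / p) / (√2)^i) *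
          (∑ j ∈ range K, (∑ q ∈ PB j, β j q / q) / (√2)^j) := by
      have e1 : ∀ i p, ∑ j ∈ range K, ∑ q ∈ PB j,
          C2 * X * (1/2^K) * (α i p / p / (√2)^i) * (β j q / q / (√2)^j) =
          C2 * X * (1/2^K) * (α i p / p / (√2)^i) *
            (∑ j ∈ range K, (∑ q ∈ PB j, β j q / q) / (√2)^j) := by
        intro i p
        rw [mul_sum]
        refine sum_congr rfl fun j _ => ?_
        rw [sum_div, mul_sum]
      rw [sum_congr rfl fun i _ => sum_congr rfl fun p _ => e1 i p]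
      generalize (∑ j ∈ range K, (∑ q ∈ PB j, β j q / q) / (√2)^j) = R
      rw [mul_sum, sum_mul]
      refine sum_congr rfl fun i _ => ?_
      rw [sum_div, mul_sum, sum_mul]
    have hs : ∀ f : ℕ → ℝ, (∀ i, 0 ≤ f i) → (∀ i, f i ≤ C2 * 2^(i/4)) →
        ∑ i ∈ range K, f i / (√2)^i ≤ C2 * Cg := by
      intro f _ hf
      calc ∑ i ∈ range K, f i / (√2)^i ≤ ∑ i ∈ range K, C2 * (2^(i/4) / (√2)^i) := by
            refine sum_le_sum fun i _ => ?_
            rw [← mul_div_assoc]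
            exact div_le_div_of_nonneg_right (hf i) (by positivity)
        _ = C2 * ∑ i ∈ range K, 2^(i/4) / (√2)^i := by rw [mul_sum]
        _ ≤ C2 * Cg := mul_le_mul_of_nonneg_left (hgeo K) hC2.le
    have hα0 : ∀ i, 0 ≤ ∑ p ∈ PB i, α i p / p := fun i =>
      sum_nonneg fun p _ => div_nonneg (hα i p) (Nat.cast_nonneg _)
    have hβ0 : ∀ i, 0 ≤ ∑ p ∈ PB i, β i p / p := fun i =>
      sum_nonneg fun p _ => div_nonneg (hβ i p) (Nat.cast_nonneg _)
    have s1 := hs _ hα0 hsα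
    have s2 := hs _ hβ0 hsβ
    have s10 : 0 ≤ ∑ i ∈ range K, (∑ p ∈ PB i, α i p / p) / (√2)^i :=
      sum_nonneg fun i _ => div_nonneg (hα0 i) (by positivity)
    have s20 : 0 ≤ ∑ i ∈ range K, (∑ p ∈ PB i, β i p / p) / (√2)^i :=
      sum_nonneg fun i _ => div_nonneg (hβ0 i) (by positivity)
    refine h1.trans (h2.trans ?_)
    rw [e]
    refine mul_le_mul (mul_le_mul_of_nonneg_left s1 (by positivity)) s2 s20 (by positivity)
  have hcT : (((range (X+1)).filter (Cond l)).card : ℝ) ≤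
      S0.card + (S1.card + (S2.card + (UU l X K).card)) := by
    have h1 := card_le_card hsub
    have h2 := card_union_le S0 (S1 ∪ (S2 ∪ UU l X K))
    have h3 := card_union_le S1 (S2 ∪ UU l X K)
    have h4 := card_union_le S2 (UU l X K)
    have : ((range (X+1)).filter (Cond l)).card ≤ S0.card + (S1.card + (S2.card + (UU l X K).card)) := by
      omega
    exact_mod_cast this
  have hmain : (((range (X+1)).filter (Cond l)).card : ℝ) ≤ (Nat.sqrt X + 1) + B * X * (1/2^K) := by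
    refine hcT.trans ?_
    have : B * X * (1/2^K) = C1 * X * (Real.exp c' * (1/2^K)) + (C1 * X * (Real.exp c' * (1/2^K)) +
        C2 * X * (1/2^K) * (C2 * Cg) * (C2 * Cg)) := by rw [hB]; ring
    linarith
  -- the square root
  have hsqrt : ((Nat.sqrt X : ℝ) + 1) * Real.log X ≤ 4 * X := by
    have h1 : (Nat.sqrt X : ℝ) ≤ √X := Real.nat_sqrt_le_real_sqrt
    have h2 : Real.log X ≤ 2 * √X := by
      have h3 : Real.log X = 2 * Real.log (√X) := by
        rw [Real.log_sqrt (by linarith)]; ring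
      have h4 := Real.log_le_sub_one_of_pos (show (0:ℝ) < √X from Real.sqrt_pos.mpr (by linarith))
      rw [h3]; linarith
    have h5 : 1 ≤ √X := by
      rw [Real.one_le_sqrt]; linarith
    have h6 : √(X:ℝ) * √X = X := Real.mul_self_sqrt (by linarith)
    calc ((Nat.sqrt X : ℝ) + 1) * Real.log X ≤ (2 * √X) * (2 * √X) :=
          mul_le_mul (by linarith) h2 hlogX.le (by positivity)
      _ = 4 * X := by rw [← h6]; ring_nf; rw [Real.sq_sqrt (by positivity)]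
  calc (((range (X+1)).filter (Cond l)).card : ℝ) * Real.log X
      ≤ ((Nat.sqrt X + 1) + B * X * (1/2^K)) * Real.log X :=
        mul_le_mul_of_nonneg_right hmain hlogX.le
    _ = (Nat.sqrt X + 1) * Real.log X + (B * X) * (Real.log X * (1/2^K)) := by ring
    _ ≤ 4 * X + (B * X) * (2 * A + 2) := by
        refine add_le_add hsqrt (mul_le_mul_of_nonneg_left hK2 (by positivity))
    _ ≤ (4 + B * (2 * A + 2) + 2 * 2^A + 2) * X := by
        have : 0 ≤ (2 * (2:ℝ)^A + 2) * X := by positivity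
        nlinarith

end Pool.Agent.H24.SH
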