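import Mathlib
import Pool.Agent.H24.SH.Defs
import Pool.Agent.H24.SH.Count
import Pool.Agent.H24.SH.Singer
import Pool.Agent.H96.Sing.Final

/-!
Symmetric designs with fixed `l` and many automorphisms: `O(K / log K)` block sizes.
-/

namespace Pool.Agent.H24.SH

open Finset Classical Pool.Agent.H96.Sing
open Pool.Agent.H12 (design_lt brc_even)

lemma cond_of_rich (l K k : ℕ) (h : k ∈ richSizes l K) : Cond l k := by
  obtain ⟨hk0, hkK, v, B, hd, haut⟩ := h
  obtain ⟨hlk, hv⟩ := design_lt hk0 (toH12 hd)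
  have hv1 : 1 ≤ v := by have := hd.1; omega
  refine ⟨hlk, v, ?_, fun hev => brc_even (toH12 hd) hlk (Nat.even_iff.mp hev), ?_⟩
  · obtain ⟨w, rfl⟩ : ∃ w, v = w + 1 := ⟨v - 1, by omega⟩
    rw [Nat.add_sub_cancel] at hv
    rw [mul_add, mul_one, hv]
  · intro hodd q hq hq2 hqv p hp hns hpq
    obtain ⟨s, hs, hsq, hev⟩ := haut q hq hq2 hqv
    exact no_exact hd hlk hodd s hs q hq hq2 (orderOf_dvd hsq) hev p hp hns hpq

lemma rich_finite (l K : ℕ) : (richSizes l K).Finite :=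
  (Set.finite_Iic K).subset fun _ hk => hk.2.1

theorem rich_bound (l : ℕ) (hl : 0 < l) : ∃ C : ℝ, 0 < C ∧ ∀ K : ℕ, 2 ≤ K →
    ((richSizes l K).ncard : ℝ) ≤ C * K / Real.log K := by
  obtain ⟨C, hC, h⟩ := cond_count l hl
  refine ⟨C, hC, fun K hK => le_trans ?_ (h K hK)⟩
  have hsub : richSizes l K ⊆ ↑((range (K+1)).filter (Cond l)) := by
    intro k hk
    rw [mem_coe, mem_filter, mem_range]
    exact ⟨by have := hk.2.1; omega, cond_of_rich l K k hk⟩
  have := Set.ncard_le_ncard hsub (Finset.finite_toSet _)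
  rw [Set.ncard_coe_finset] at this
  exact_mod_cast this

lemma diffSet_rich (l : ℕ) (G : Type) [Group G] [Finite G] (D : Finset G)
    (hD : IsDifferenceSet G D l) (h0 : 0 < D.card) (hlt : D.card < Nat.card G) (K : ℕ)
    (hK : D.card ≤ K) : D.card ∈ richSizes l K := by
  obtain ⟨B, hB, hfree⟩ := design_of_diffSet G D l hD hlt
  refine ⟨h0, hK, _, B, hB, fun q hq _ hqv => ?_⟩
  obtain ⟨s, h1, h2, h3⟩ := hfree q hq hqv
  exact free_even hq (by omega) h1 h2 h3

lemma group_rich (l v k : ℕ) (B : Fin v → Finset (Fin v)) (hB : IsSymmetricDesign v k l B)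
    (hk : 0 < k) (H : Subgroup (Equiv.Perm (Fin v))) (hH : ∀ s ∈ H, IsAut B s)
    (htrans : ∀ x y, ∃ s ∈ H, s x = y)
    (hcond : (∀ x : Fin v, Nat.Coprime (Nat.card (MulAction.stabilizer H x)) v) ∨
      Group.IsNilpotent H) (K : ℕ) (hK : k ≤ K) : k ∈ richSizes l K := by
  refine ⟨hk, hK, v, B, hB, fun q hq _ hqv => ?_⟩
  have hv : 0 < v := by have := hB.1; omega
  obtain ⟨s, hs, h1, h2⟩ := fpf_of_group hv H htrans hcond q hq hqv
  exact free_even hq hv (hH s hs) h1 h2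

lemma ds_of_add (v : ℕ) (D : Finset (ZMod v))
    (hdiff : ∀ d : ZMod v, d ≠ 0 → Set.ncard {x : ZMod v × ZMod v |
      x.1 ∈ D ∧ x.2 ∈ D ∧ x.1 - x.2 = d} = 1) :
    IsDifferenceSet (Multiplicative (ZMod v)) (D : Finset (Multiplicative (ZMod v))) 1 := by
  intro g hg
  have h := hdiff (Multiplicative.toAdd g) (fun h0 => hg h0)
  simp_rw [sub_eq_add_neg] at h
  exact h

lemma planar_sub_aux (v k K : ℕ) (hv : v = k * (k - 1) + 1) (hk2 : 2 ≤ k) (hkK : k ≤ K)
    (D : Finset (ZMod v)) (hD : D.card = k)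
    (hdiff : ∀ d : ZMod v, d ≠ 0 → Set.ncard {x : ZMod v × ZMod v |
      x.1 ∈ D ∧ x.2 ∈ D ∧ x.1 - x.2 = d} = 1) : k ∈ richSizes 1 K := by
  have : NeZero v := ⟨by omega⟩
  have hkv : k < v := by
    obtain ⟨m, rfl⟩ : ∃ m, k = m + 2 := ⟨k - 2, by omega⟩
    rw [hv, show m + 2 - 1 = m + 1 by omega]
    nlinarith
  have hcard : Nat.card (Multiplicative (ZMod v)) = v := by
    change Nat.card (ZMod v) = v
    exact Nat.card_zmod v
  have hfin : Finite (Multiplicative (ZMod v)) := inferInstanceAs (Finite (ZMod v))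
  have hD' : Finset.card (α := Multiplicative (ZMod v)) D = k := hD
  have := diffSet_rich 1 (Multiplicative (ZMod v)) D (ds_of_add v D hdiff)
    (by rw [hD']; omega) (by rw [hD', hcard]; exact hkv) K (by rw [hD']; exact hkK)
  rwa [hD'] at this

lemma planar_sub (K : ℕ) : planarSizes K ⊆ richSizes 1 K := by
  rintro k ⟨hk2, hkK, D, hD, hdiff⟩
  exact planar_sub_aux _ k K rfl hk2 hkK D hD hdiff

theorem planar_lower : ∀ K : ℕ, 3 ≤ K →
    3/50 * K / Real.log K ≤ ((planarSizes K).ncard : ℝ) := by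
  intro K hK
  have hfin : (planarSizes K).Finite := (Set.finite_Iic K).subset fun _ hk => hk.2.1
  have h1 : Nat.primeCounting (K-1) ≤ (planarSizes K).ncard := by
    have h2 : (↑((Nat.primesBelow K).image (fun p => p + 1)) : Set ℕ) ⊆ planarSizes K := by
      intro k hk
      rw [coe_image] at hk
      obtain ⟨p, hp, rfl⟩ := hk
      rw [mem_coe, Nat.mem_primesBelow] at hp
      exact singer p K hp.2 hp.1
    have h3 := Set.ncard_le_ncard h2 hfin
    rw [Set.ncard_coe_finset, card_image_of_injective _ (fun a b h => by simpa using h),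
      Nat.primesBelow_card_eq_primeCounting'] at h3
    unfold Nat.primeCounting
    rw [show K - 1 + 1 = K by omega]
    exact h3
  obtain ⟨n, rfl⟩ : ∃ n, K = n + 1 := ⟨K - 1, by omega⟩
  rw [Nat.add_sub_cancel] at h1
  have hn2 : (2:ℝ) ≤ n := by exact_mod_cast (by omega : 2 ≤ n)
  have h4 := Chebyshev.psi_ge n
  have h5 := Chebyshev.psi_le_primeCounting_mul_log n
  have hl2 := Real.log_two_gt_d9
  have h6 : Real.log ((n:ℝ) + 1) ≤ Real.log 2 + ((n:ℝ) - 1)/2 := by
    have h7 := Real.log_le_sub_one_of_pos (show (0:ℝ) < ((n:ℝ) + 1)/2 by positivity)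
    rw [Real.log_div (by positivity) (by norm_num)] at h7
    linarith
  have hlogn : 0 ≤ Real.log (n:ℝ) := Real.log_nonneg (by linarith)
  have hlogK : 0 < Real.log ((n + 1 : ℕ) : ℝ) := Real.log_pos (by push_cast; linarith)
  have hmono : Real.log (n:ℝ) ≤ Real.log ((n + 1 : ℕ) : ℝ) :=
    Real.log_le_log (by linarith) (by push_cast; linarith)
  rw [div_le_iff₀ hlogK]
  have h8 : (Nat.primeCounting n : ℝ) ≤ ((planarSizes (n+1)).ncard : ℝ) := by exact_mod_cast h1
  have h9 : (Nat.primeCounting n : ℝ) * Real.log n ≤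
      ((planarSizes (n+1)).ncard : ℝ) * Real.log ((n + 1 : ℕ) : ℝ) :=
    mul_le_mul h8 hmono hlogn (Nat.cast_nonneg _)
  push_cast at h9 ⊢
  nlinarith

end Pool.Agent.H24.SH
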